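import Pool.Agent.H65.CRG.Defs

/-!
# Zeros on the critical line, general degree: targets, part N (the mollified second moment with
shifts)
-/

set_option autoImplicit false

open NumberField NumberField.InfinitePlace Complex Filter Topology MeasureTheory

namespace Pool.Agent.H65.CRG

open Pool.Agent.H28.RC Pool.Agent.H25.HK Pool.Agent.H37.CV Pool.Agent.H65.CRZ

/-! ### The Gamma function and the weights -/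

/-- (G3) the Gamma factors of the dual term. -/
def T_G3 : Prop :=
  ∀ n : ℕ, ∃ C B : ℝ, 0 < C ∧ 0 ≤ B ∧ ∀ (α β : ℂ) (u : ℝ), ‖α‖ ≤ 1 / 16 → ‖β‖ ≤ 1 / 16 →
    ‖(Gamma (1 - (1 / 2 + α + u * I)) * Gamma (1 - (1 / 2 + β - u * I)) /
      (Gamma (1 / 2 + α + u * I) * Gamma (1 / 2 + β - u * I))) ^ n - 1‖ ≤
        C * (‖α‖ + ‖β‖) * (1 + |u|) ^ B

/-- (VG) the weights. -/
def T_VG : Prop :=
  ∀ (n : ℕ) (a : ℝ), 0 < a → ∃ C B : ℝ, 0 < C ∧ 0 ≤ B ∧ ∀ s₁ s₂ : ℂ, 1 / 4 ≤ s₁.re →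
    s₁.re ≤ 3 / 4 → 1 / 4 ≤ s₂.re → s₂.re ≤ 3 / 4 → ∀ x : ℝ, 0 < x →
      Integrable (fun t : ℝ => Gq s₁ s₂ (a + t * I) ^ n *
        (cexp (2 * (a + t * I) ^ 2) / (a + t * I)) * (x : ℂ) ^ (-(a + t * I))) ∧
      Vn n s₁ s₂ x = ((1 / (2 * Real.pi) : ℝ) : ℂ) * ∫ t : ℝ, Gq s₁ s₂ (a + t * I) ^ n *
        (cexp (2 * (a + t * I) ^ 2) / (a + t * I)) * (x : ℂ) ^ (-(a + t * I)) ∧
      ‖Vn n s₁ s₂ x‖ ≤ C * (1 + |s₁.im| + |s₂.im|) ^ B * x ^ (-a)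

/-- (AF) the approximate functional equation. -/
def T_AF : Prop :=
  ∀ (K : Type) [Field K] [NumberField K] [IsTotallyComplex K], ∀ (χ : RCC K), χ.f ≠ ⊤ →
    ∀ Z : ℂ → ℂ, IsEnt χ Z → ∀ s₁ s₂ : ℂ, 1 / 4 ≤ s₁.re →
      s₁.re ≤ 3 / 4 → 1 / 4 ≤ s₂.re → s₂.re ≤ 3 / 4 →
      Z s₁ * (starRingEnd ℂ) (Z ((starRingEnd ℂ) s₂)) = A2n (cB K χ.f ^ 2) s₁ s₂ χ.ψ +
        Xn (nrComplexPlaces K) (cB K χ.f) s₁ s₂ * A2n (cB K χ.f ^ 2) (1 - s₂) (1 - s₁) χ.ψ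

/-- (SB) the trivial bound of the sum over the ideals. -/
def T_SB : Prop :=
  ∀ (K : Type) [Field K] [NumberField K] (δ a : ℝ), 0 < δ → δ ≤ 1 / 8 → 2 * δ ≤ a →
    ∃ C B : ℝ, 0 < C ∧ 0 ≤ B ∧ ∀ (m : Ideal (𝓞 K)) (s₁ s₂ : ℂ) (Y : ℝ),
      |s₁.re - 1 / 2| ≤ δ → |s₂.re - 1 / 2| ≤ δ → 0 < Y →
      Summable (fun t : {t : Ideal (𝓞 K) // t ≠ ⊥ ∧ t ⊔ m = ⊤} =>
        ‖((nm t.1 : ℝ) : ℂ) ^ (-(s₁ + s₂)) * Vn (nrComplexPlaces K) s₁ s₂ (nm t.1 ^ 2 / Y)‖) ∧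
      ‖Sn m s₁ s₂ Y‖ ≤ C * (1 + |s₁.im| + |s₂.im|) ^ B * Y ^ a

/-- (SA) the sum over all ideals. -/
def T_SA : Prop :=
  ∀ (K : Type) [Field K] [NumberField K] (E : ℂ → ℂ), IsE K E →
    ∃ C B : ℝ, 0 < C ∧ 0 ≤ B ∧ ∀ (s₁ s₂ ω : ℂ) (Y : ℝ), |s₁.re - 1 / 2| ≤ 1 / 16 →
      |s₂.re - 1 / 2| ≤ 1 / 16 → s₁ + s₂ = 1 + ω → ω ≠ 0 → ‖ω‖ ≤ 1 / 8 → 0 < Y →
      ‖Sn (K := K) ⊤ s₁ s₂ Y - 1 / ω * (E (1 + ω) -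
          (rho K : ℂ) * Gq s₁ s₂ (-(ω / 2)) ^ nrComplexPlaces K * cexp (ω ^ 2 / 2) *
            (Y : ℂ) ^ (-(ω / 2)))‖ ≤
        C * (1 + |s₁.im| + |s₂.im|) ^ B * Y ^ (-(1 / 8) : ℝ) / ‖ω‖

/-- (SC) the sum over the ideals prime to `q`. -/
def T_SC : Prop :=
  ∀ (K : Type) [Field K] [NumberField K] (δ a : ℝ), 0 < δ → δ ≤ 1 / 8 → 2 * δ ≤ a →
    ∃ C B : ℝ, 0 < C ∧ 0 ≤ B ∧ ∀ (q : ℕ) (s₁ s₂ : ℂ) (Y : ℝ), q.Prime →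
      |s₁.re - 1 / 2| ≤ δ → |s₂.re - 1 / 2| ≤ δ → 0 < Y →
      ‖Sn (qi K q) s₁ s₂ Y - Sn (K := K) ⊤ s₁ s₂ Y‖ ≤
        C * (1 + |s₁.im| + |s₂.im|) ^ B * Y ^ a * (q : ℝ) ^ (-(1 - 2 * δ + 2 * a))

/-! ### The parameters -/

/-- (CQ) the parameters. -/
def T_CQ : Prop :=
  ∀ (K : Type) [Field K] [NumberField K] [IsCMField K], 1 ≤ nrComplexPlaces K ∧
    Module.finrank ℚ K = 2 * nrComplexPlaces K ∧ ∃ c : ℝ, 0 < c ∧ ∀ q : ℕ, q.Prime →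
      cB K (qi K q) = c * (q : ℝ) ^ nrComplexPlaces K ∧
        nm (qi K q) = (q : ℝ) ^ Module.finrank ℚ K

/-! ### The second moment of the primitive characters -/

/-- (SE) the second moment of the primitive characters. -/
def T_SE : Prop :=
  ∀ (K : Type) [Field K] [NumberField K] [IsCMField K] (ε₁ c C₀ : ℝ), 0 < ε₁ → ε₁ < 1 / 2 →
    0 < c → 0 < C₀ → ∃ B : ℝ, 0 ≤ B ∧ ∀ η : ℝ, 0 < η → ∃ q₀ : ℕ, ∀ q : ℕ, q.Prime → q₀ ≤ q →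
      ∀ (α β : ℂ) (u : ℝ), ‖α‖ ≤ C₀ / Real.log q → ‖β‖ ≤ C₀ / Real.log q →
      c / Real.log q ≤ ‖α + β‖ →
      ‖(∑ᶠ χ ∈ Pr K (qi K q), A2n (cB K (qi K q) ^ 2) (1 / 2 + α + u * I) (1 / 2 + β - u * I) χ.ψ *
          (pol (Mq ε₁ q) (cu K (Mq ε₁ q) u) χ.ψ *
            pol (Mq ε₁ q) (cu K (Mq ε₁ q) (-u)) (fun I => (starRingEnd ℂ) (χ.ψ I)))) -
        nc (qi K q) (qi K q) *
          Dn (qi K q) (cB K (qi K q) ^ 2) (Mq ε₁ q) (1 / 2 + α + u * I) (1 / 2 + β - u * I)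
            (cu K (Mq ε₁ q) u) (cu K (Mq ε₁ q) (-u)) ⊤ ⊤‖ ≤
        η * (1 + |u|) ^ B * nc (qi K q) (qi K q)

/-! ### The diagonal -/

/-- (DI) the diagonal term. -/
def T_DI : Prop :=
  ∀ (K : Type) [Field K] [NumberField K] [IsCMField K]
    (E : ℂ → ℂ) (ε₁ c C₀ : ℝ), IsE K E → 0 < ε₁ → ε₁ < 1 / 2 → 0 < c → 0 < C₀ →
    ∃ B : ℝ, 0 ≤ B ∧ ∀ η : ℝ, 0 < η → ∃ q₀ : ℕ, ∀ q : ℕ, q.Prime → q₀ ≤ q →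
      ∀ (α β : ℂ) (u : ℝ), ‖α‖ ≤ C₀ / Real.log q → ‖β‖ ≤ C₀ / Real.log q →
      c / Real.log q ≤ ‖α + β‖ →
      ‖Dn (qi K q) (cB K (qi K q) ^ 2) (Mq ε₁ q) (1 / 2 + α + u * I) (1 / 2 + β - u * I)
            (cu K (Mq ε₁ q) u) (cu K (Mq ε₁ q) (-u)) ⊤ ⊤ +
          Xn (nrComplexPlaces K) (cB K (qi K q)) (1 / 2 + α + u * I) (1 / 2 + β - u * I) *
            Dn (qi K q) (cB K (qi K q) ^ 2) (Mq ε₁ q) (1 - (1 / 2 + β - u * I))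
              (1 - (1 / 2 + α + u * I)) (cu K (Mq ε₁ q) u) (cu K (Mq ε₁ q) (-u)) ⊤ ⊤ -
          (1 / (α + β) * E (1 + (α + β)) * Sd K (Mq ε₁ q) α β -
            Xn (nrComplexPlaces K) (cB K (qi K q)) (1 / 2 + α + u * I) (1 / 2 + β - u * I) *
              (1 / (α + β) * E (1 - (α + β)) * Sd K (Mq ε₁ q) (-β) (-α)))‖ ≤
        η * (1 + |u|) ^ B

/-- (BM) the main term. -/
def T_BM : Prop :=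
  ∀ (K : Type) [Field K] [NumberField K] [IsCMField K]
    (E : ℂ → ℂ) (ε₁ c C₀ : ℝ), IsE K E → 0 < ε₁ → ε₁ < 1 / 2 → 0 < c → 0 < C₀ →
    ∃ B : ℝ, 0 ≤ B ∧ ∀ η : ℝ, 0 < η → ∃ q₀ : ℕ, ∀ q : ℕ, q.Prime → q₀ ≤ q →
      ∀ (α β : ℂ) (u : ℝ), ‖α‖ ≤ C₀ / Real.log q → ‖β‖ ≤ C₀ / Real.log q →
      c / Real.log q ≤ ‖α + β‖ →
      ‖1 / (α + β) * E (1 + (α + β)) * Sd K (Mq ε₁ q) α β -
            Xn (nrComplexPlaces K) (cB K (qi K q)) (1 / 2 + α + u * I) (1 / 2 + β - u * I) *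
              (1 / (α + β) * E (1 - (α + β)) * Sd K (Mq ε₁ q) (-β) (-α)) -
          Bm α β (Lg K q) (Real.log (Mq ε₁ q))‖ ≤ η * (1 + |u|) ^ B

/-- (B) the mollified second moment with shifts. -/
def T_B : Prop :=
  ∀ (K : Type) [Field K] [NumberField K] [IsCMField K] (ε₁ c C₀ : ℝ), 0 < ε₁ → ε₁ < 1 / 2 →
    0 < c → 0 < C₀ →
    ∃ B : ℝ, 0 ≤ B ∧ ∀ η : ℝ, 0 < η → ∃ q₀ : ℕ, ∀ q : ℕ, q.Prime → q₀ ≤ q →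
      ∀ (α β : ℂ) (u : ℝ), ‖α‖ ≤ C₀ / Real.log q → ‖β‖ ≤ C₀ / Real.log q →
      c / Real.log q ≤ ‖α + β‖ →
      ‖(∑ᶠ χ ∈ Pr K (qi K q), Zx χ (1 / 2 + α + u * I) *
            (starRingEnd ℂ) (Zx χ (1 / 2 + (starRingEnd ℂ) β + u * I)) *
              ((‖pol (Mq ε₁ q) (cu K (Mq ε₁ q) u) χ.ψ‖ ^ 2 : ℝ) : ℂ)) -
          nc (qi K q) (qi K q) * Bm α β (Lg K q) (Real.log (Mq ε₁ q))‖ ≤
        η * (1 + |u|) ^ B * nc (qi K q) (qi K q)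

end Pool.Agent.H65.CRG
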