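import Pool.Agent.H65.CRG.Defs

/-!
# Zeros on the critical line, general degree: targets, part L (Levinson's method)
-/

set_option autoImplicit false

open Complex Set MeasureTheory Pool.Agent.H65.CRZ

namespace Pool.Agent.H65.CRG

/-! ### The argument on the critical line -/

/-- (CG) the argument of `x + i y` between the zeros of `x`. -/
def T_CG : Prop :=
  ∀ (x x₁ y y₁ k : ℝ → ℝ) (a b : ℝ), a < b → (∀ t, HasDerivAt x (x₁ t) t) →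
    (∀ t, HasDerivAt y (y₁ t) t) → Continuous x₁ → Continuous y₁ →
    {t ∈ Icc a b | x t = 0}.Finite → ContinuousOn k (Icc a b) →
    (∀ t ∈ Icc a b, x t ≠ 0 → k t * (x t ^ 2 + y t ^ 2) = x t * y₁ t - y t * x₁ t) →
    ∫ t in a..b, k t ≤ Real.pi * ({t ∈ Ioo a b | x t = 0}.ncard + 1)

/-- (NG) the number of the zeros of `F` on the critical line, `F = Re G`. -/
def T_NG : Prop :=
  ∀ (F G : ℂ → ℂ) (b t₁ t₂ : ℝ), 1 / 2 < b → t₁ < t₂ → Differentiable ℂ F → Differentiable ℂ G →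
    (∃ z, F z ≠ 0) →
    (∀ t : ℝ, (F (1 / 2 + t * I)).im = 0 ∧ (G (1 / 2 + t * I)).re = (F (1 / 2 + t * I)).re) →
    (∀ x ∈ Icc (1 / 2) b, G (x + t₁ * I) ≠ 0 ∧ G (x + t₂ * I) ≠ 0) →
    (∀ t ∈ Icc t₁ t₂, G (b + t * I) ≠ 0) →
    (CZ F G t₁ t₂).Finite ∧
    1 / Real.pi * rp G (1 / 2) b t₁ t₂ -
        2 * zc G {ρ : ℂ | 1 / 2 ≤ ρ.re ∧ ρ.re < b ∧ t₁ < ρ.im ∧ ρ.im < t₂} - 1 ≤
      (CZ F G t₁ t₂).ncard

/-! ### Levinson's function -/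

/-- (TR) the auxiliary function is a combination of derivatives. -/
def T_TR : Prop :=
  ∀ (n N : ℕ) (m : ℕ → ℝ), 0 < 1 + pm N m (1 / 2) → ∃ c : ℝ → ℕ → ℂ → ℂ,
    (∀ (A : ℝ) (i : ℕ) (s : ℂ), 0 < s.re → DifferentiableAt ℂ (c A i) s) ∧
    (∀ (A : ℝ) (Z : ℂ → ℂ) (s : ℂ), 1 < A → Differentiable ℂ Z → 0 < s.re →
      (∀ k : ℕ, DifferentiableAt ℂ (TK (el n A) Z k) s) ∧
      DifferentiableAt ℂ (VQ n N m A Z) s ∧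
      VQ n N m A Z s = ∑ i ∈ Finset.range (2 * N + 1),
        c A i s / ((2 * Real.log A : ℝ) : ℂ) ^ i * iteratedDeriv i Z s) ∧
    ∀ b T : ℝ, ∃ B : ℝ, 0 < B ∧ ∀ (A : ℝ) (i : ℕ) (s : ℂ), 2 ≤ A → 1 / 8 ≤ s.re → s.re ≤ b →
      |s.im| ≤ T → ‖c A i s - (qm N m i : ℂ)‖ ≤ B / Real.log A

/-- (QI) the polynomial `Q` and its coefficients. -/
def T_QI : Prop :=
  ∀ (N : ℕ) (m : ℕ → ℝ), 0 < 1 + pm N m (1 / 2) →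
    qm N m 0 = 1 ∧ Qm N m 0 = 1 ∧
    (∀ v : ℝ, Qm N m v = ∑ i ∈ Finset.range (2 * N + 1), qm N m i * (-v) ^ i) ∧
    ContDiff ℝ 1 (Qm N m) ∧ ∀ R : ℝ, ContDiff ℝ 1 (gQ N m R)

/-- (V0) the auxiliary function of an `L`-function. -/
def T_V0 : Prop :=
  ∀ (n N : ℕ) (m : ℕ → ℝ) (C b : ℝ), 0 < 1 + pm N m (1 / 2) → 1 ≤ C → 2 ≤ b →
    C * (2 : ℝ) ^ (-b) ≤ 1 / 100 →
    ∃ C' : ℝ, 0 < C' ∧ ∀ T : ℝ, 0 < T → ∃ A₀ : ℝ, 2 ≤ A₀ ∧ ∀ A : ℝ, A₀ ≤ A → ∀ Z : ℂ → ℂ,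
      LFg n C A Z → ∀ s : ℂ, 1 / 8 < s.re → s.re < 2 * b → |s.im| < T →
        DifferentiableAt ℂ (VQ n N m A Z) s ∧ ‖Z s‖ ≤ A ^ C' ∧ ‖VQ n N m A Z s‖ ≤ A ^ C' ∧
        (b ≤ s.re → ‖Z s - 1‖ ≤ 1 / 4 ∧ ‖deriv Z s‖ ≤ 1 ∧ ‖VQ n N m A Z s - 1‖ ≤ 1 / 4 ∧
          ‖deriv (VQ n N m A Z) s‖ ≤ 1)

/-- (LV) Levinson's inequality. -/
def T_LV : Prop :=
  ∀ (n N : ℕ) (m : ℕ → ℝ) (C b : ℝ), 0 < 1 + pm N m (1 / 2) → 1 ≤ C → 2 ≤ b →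
    C * (2 : ℝ) ^ (-b) ≤ 1 / 100 →
    ∃ C' : ℝ, 0 < C' ∧ ∀ T : ℝ, 0 < T → ∃ A₀ : ℝ, 2 ≤ A₀ ∧ ∀ A : ℝ, A₀ ≤ A → ∀ Z : ℂ → ℂ,
      LFg n C A Z → (CZ Z (VQ n N m A Z) 0 T).Finite ∧
        T / Real.pi * Real.log A - C' * Real.log A -
          2 * zc (VQ n N m A Z) {ρ : ℂ | 1 / 2 ≤ ρ.re ∧ ρ.re < b ∧ ρ ∈ St T} ≤
            (CZ Z (VQ n N m A Z) 0 T).ncard

/-- (SY) the symmetry of the zeros. -/
def T_SY : Prop :=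
  ∀ (n : ℕ) (C A b T : ℝ), 0 < A → 2 ≤ b → C * (2 : ℝ) ^ (-b) ≤ 1 / 100 → ∀ Z : ℂ → ℂ,
    LFg n C A Z →
    {ρ : ℂ | ρ ∈ St T ∧ Z ρ = 0}.Finite ∧ (∀ ρ ∈ St T, Z ρ = 0 → 1 - b < ρ.re ∧ ρ.re < b) ∧
    zc Z (St T) = 2 * zc Z {ρ : ℂ | 1 / 2 < ρ.re ∧ ρ.re < b ∧ ρ ∈ St T} +
      zc Z {ρ : ℂ | ρ.re = 1 / 2 ∧ ρ ∈ St T}

/-- (RV) upper bound for the number of zeros. -/
def T_RV : Prop :=
  ∀ (n : ℕ) (C b : ℝ), 1 ≤ C → 2 ≤ b → C * (2 : ℝ) ^ (-b) ≤ 1 / 100 →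
    ∃ C' : ℝ, 0 < C' ∧ ∀ T : ℝ, 0 < T → ∃ A₀ : ℝ, 2 ≤ A₀ ∧ ∀ A : ℝ, A₀ ≤ A → ∀ Z : ℂ → ℂ,
      LFg n C A Z → {ρ : ℂ | ρ ∈ St T ∧ Z ρ = 0}.Finite ∧
        zc Z (St T) ≤ T / Real.pi * Real.log A + C' * Real.log A

/-! ### The constant -/

/-- the kernel of Cauchy's formula -/
noncomputable def kn (N : ℕ) (m : ℕ → ℝ) (z : ℂ) : ℂ :=
  ∑ i ∈ Finset.range (2 * N + 1), ((qm N m i * i.factorial : ℝ) : ℂ) / z ^ i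

/-- (CK) Cauchy's formula with the kernel. -/
def T_CK : Prop :=
  ∀ (N : ℕ) (m : ℕ → ℝ) (f : ℂ → ℂ) (s : ℂ) (r L : ℝ), 0 < r → 0 < L →
    (∀ z ∈ Metric.closedBall s (r / L), DifferentiableAt ℂ f z) →
    1 / (2 * Real.pi : ℂ) * ∫ φ in (0 : ℝ)..(2 * Real.pi),
        f (s + r * cexp (φ * I) / L) * kn N m (r * cexp (φ * I)) =
      ∑ i ∈ Finset.range (2 * N + 1), (qm N m i : ℂ) / (L : ℂ) ^ i * iteratedDeriv i f s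

/-- (BI) the main term as an integral. -/
def T_BI : Prop :=
  ∀ (a b : ℂ) (x : ℝ), 0 < x → a + b ≠ 0 →
    b0 a b x = (1 / x : ℂ) * (∫ v in (0 : ℝ)..1, cexp (-(a + b) * v)) * (1 + x ^ 2 * a * b / 3) +
      (1 + cexp (-(a + b))) / 2

/-- (DB) Cauchy's formula in two variables for the main term. -/
def T_DB : Prop :=
  ∀ (N : ℕ) (m : ℕ → ℝ) (R x : ℝ), 0 < 1 + pm N m (1 / 2) → 0 < R → 0 < x →
    Continuous (fun p : ℝ × ℝ =>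
      b0 (-R + R / 2 * cexp (p.1 * I)) (-R + R / 2 * cexp (-(p.2 * I))) x) ∧
    1 / (2 * Real.pi : ℂ) ^ 2 * (∫ φ in (0 : ℝ)..(2 * Real.pi), ∫ ψ in (0 : ℝ)..(2 * Real.pi),
      b0 (-R + R / 2 * cexp (φ * I)) (-R + R / 2 * cexp (-(ψ * I))) x *
        (kn N m (R / 2 * cexp (φ * I)) * kn N m (R / 2 * cexp (-(ψ * I))))) = (cQ N m R x : ℂ)

/-- (Q1) the constant is at least one. -/
def T_Q1 : Prop :=
  ∀ (N : ℕ) (m : ℕ → ℝ) (R x : ℝ), 0 < 1 + pm N m (1 / 2) → 0 < x → 1 ≤ cQ N m R x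

/-- the value of the quadratic functional for a function `g` with the derivative `g₁` -/
noncomputable def JF (g g₁ : ℝ → ℝ) (x : ℝ) : ℝ :=
  1 / 2 + g 1 ^ 2 / 2 + 1 / x * (∫ v in (0 : ℝ)..1, g v ^ 2) +
    x / 3 * ∫ v in (0 : ℝ)..1, g₁ v ^ 2

/-- the odd function `1 - e^(-2Ry)` -/
noncomputable def pE (R y : ℝ) : ℝ := if 0 ≤ y then 1 - Real.exp (-2 * R * y) else
  Real.exp (2 * R * y) - 1

/-- (QW) approximation by odd polynomials. -/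
def T_QW : Prop :=
  ∀ (p p₁ : ℝ → ℝ) (R x ε : ℝ), 0 < R → 0 < x → 0 < ε → (∀ y, HasDerivAt p (p₁ y) y) →
    Continuous p₁ → (∀ y, p (-y) = -p y) → 0 < 1 + p (1 / 2) →
    ∃ (N : ℕ) (m : ℕ → ℝ), 0 < 1 + pm N m (1 / 2) ∧
      |cQ N m R x - JF (fun v => Real.exp (R * v) * ((1 + p (1 / 2 - v)) / (1 + p (1 / 2))))
        (fun v => Real.exp (R * v) * ((R * (1 + p (1 / 2 - v)) - p₁ (1 / 2 - v)) /
          (1 + p (1 / 2)))) x| ≤ ε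

/-- (QE) the value for the exponential function. -/
def T_QE : Prop :=
  ∀ R : ℝ, 0 < R → (∀ y, HasDerivAt (pE R) (2 * R * Real.exp (-2 * R * |y|)) y) ∧
    JF (fun v => Real.exp (R * v) * ((1 + pE R (1 / 2 - v)) / (1 + pE R (1 / 2))))
        (fun v => Real.exp (R * v) * ((R * (1 + pE R (1 / 2 - v)) -
          2 * R * Real.exp (-2 * R * |1 / 2 - v|)) / (1 + pE R (1 / 2)))) (1 / R) =
      (2 * Real.exp R - 5 / 6 - Real.exp (-2 * R) / 6) / (2 - Real.exp (-R)) ^ 2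

/-- (QX) a positive proportion for every length of the mollifier. -/
def T_QX : Prop :=
  ∀ x : ℝ, 0 < x → x ≤ 1 / 4 → ∃ (N : ℕ) (m : ℕ → ℝ), 0 < 1 + pm N m (1 / 2) ∧
    17 / 25 * x < 1 - Real.log (cQ N m (1 / x) x) / (1 / x)

/-- (QL) the value for a linear polynomial. -/
def T_QL : Prop :=
  ∀ (R lam x : ℝ), 0 < R → 0 < x → 0 < lam → lam < 2 →
    cQ 1 (fun _ => lam / (1 - lam / 2)) R x = cc R lam x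

/-- (CN) the constants for simple zeros. -/
def T_CN : Prop :=
  345 / 1000 < 1 - Real.log (cc (5 / 4) (26 / 25) (499 / 1000)) / (5 / 4) ∧
  122 / 1000 < 1 - Real.log (cc 2 (13 / 12) (2499 / 10000)) / 2 ∧
  35 / 10000 < 1 - Real.log (cc (5 / 2) (12 / 11) (1666 / 10000)) / (5 / 2)

end Pool.Agent.H65.CRG
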