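import Pool.Agent.H65.CRG.FH

/-!
# Critical zeros, general degree: the Artin L-functions
-/

set_option autoImplicit false

open NumberField NumberField.InfinitePlace Complex Filter Topology MeasureTheory Set

namespace Pool.Agent.H65.CRG

open Pool.Agent.H28.RC Pool.Agent.H25.HK Pool.Agent.H37.CV Pool.Agent.H65.CRZ

theorem num_FG {d u n X κ θ e L Z : ℝ} (hd : 0 < d) (hX : 0 ≤ X) (hθ0 : 0 ≤ θ)
    (hθ1 : θ ≤ 1) (he : 0 < e) (he2 : e ≤ 1 / 2) (hκ : θ + 4 * e ≤ κ) (hn : 0 ≤ n) (hu : 0 ≤ u)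
    (h1 : d * u ≤ (1 + e) * n) (h2 : κ * X * n ≤ d * L + e * ((1 + e) * X) * n)
    (hZ : Z ≤ u * ((1 + e) * X)) : θ * X * u ≤ L ∧ θ * Z ≤ L := by
  have hee : e * e ≤ 1 / 2 * e := mul_le_mul_of_nonneg_right he2 he.le
  have h3 : θ * (1 + e) ^ 2 ≤ κ - e * (1 + e) := by
    have h31 : θ * (2 * e + e * e) ≤ 1 * (2 * e + e * e) :=
      mul_le_mul_of_nonneg_right hθ1 (by positivity)
    have h32 : θ * (1 + e) ^ 2 = θ + θ * (2 * e + e * e) := by ring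
    have h33 : e * (1 + e) = e + e * e := by ring
    rw [h32, h33]
    linarith
  have hXn : 0 ≤ X * n := mul_nonneg hX hn
  have h4 : θ * (1 + e) ^ 2 * (X * n) ≤ d * L := by
    have := mul_le_mul_of_nonneg_right h3 hXn
    nlinarith
  have h5 : d * (θ * (1 + e) * X * u) ≤ d * L := by
    have h6 : 0 ≤ θ * (1 + e) * X := by positivity
    have h7 := mul_le_mul_of_nonneg_left h1 h6
    nlinarith
  have h8 : θ * (1 + e) * X * u ≤ L := le_of_mul_le_mul_left h5 hd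
  constructor
  · refine le_trans ?_ h8
    have : 0 ≤ θ * X * u := by positivity
    nlinarith
  · refine le_trans ?_ h8
    have := mul_le_mul_of_nonneg_left hZ hθ0
    nlinarith

theorem pf_FG (hTF : T_TF) (hFH : T_FH) (hFZ : T_FZ) : T_FG := by
  intro F _ _ _ _ ε₀ hε₀
  obtain ⟨d, hd⟩ : ∃ d : ℝ, d = (Module.finrank ℚ F : ℝ) := ⟨_, rfl⟩
  have hd0' : 0 < Module.finrank ℚ F := Module.finrank_pos
  have hd1 : 1 ≤ d := by rw [hd]; exact_mod_cast hd0'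
  have hd0 : 0 < d := by linarith
  obtain ⟨κ, hκ, T₁, hT₁, hFH⟩ := hFH F
  rw [← hd] at hκ
  have hθ0 : 0 ≤ 2 / (3 * d) := by positivity
  have hθ1 : 2 / (3 * d) ≤ 1 := by
    rw [div_le_one (by linarith)]; linarith
  obtain ⟨s, hs⟩ : ∃ s : ℝ, s = ks (Module.finrank ℚ F) := ⟨_, rfl⟩
  have hs0 : 0 ≤ s := by
    rw [hs]; unfold ks; split_ifs <;> norm_num
  have hs1 : s ≤ 1 := by
    rw [hs]; unfold ks; split_ifs <;> norm_num
  obtain ⟨e, he⟩ : ∃ e : ℝ, e = min (min ε₀ (1 / 2)) (min ((κ - 2 / (3 * d)) / 4) (ε₀ / 4)) :=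
    ⟨_, rfl⟩
  have he0 : 0 < e := by
    rw [he]
    exact lt_min (lt_min hε₀ (by norm_num)) (lt_min (by linarith) (by linarith))
  have heε : e ≤ ε₀ := by rw [he]; exact (min_le_left _ _).trans (min_le_left _ _)
  have he2 : e ≤ 1 / 2 := by rw [he]; exact (min_le_left _ _).trans (min_le_right _ _)
  have heκ : 2 / (3 * d) + 4 * e ≤ κ := by
    have : e ≤ (κ - 2 / (3 * d)) / 4 := by
      rw [he]; exact (min_le_right _ _).trans (min_le_left _ _)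
    linarith
  have heε4 : 4 * e ≤ ε₀ := by
    have : e ≤ ε₀ / 4 := by rw [he]; exact (min_le_right _ _).trans (min_le_right _ _)
    linarith
  obtain ⟨q₁, hTF⟩ := hTF F e he0
  obtain ⟨T₂, hT₂, hFZ⟩ := hFZ F e he0
  refine ⟨max T₁ T₂, lt_of_lt_of_le hT₁ (le_max_left _ _), fun T hT => ?_⟩
  have hT0 : 0 < T := lt_of_lt_of_le hT₁ ((le_max_left _ _).trans hT)
  obtain ⟨q₂, hFH⟩ := hFH T ((le_max_left _ _).trans hT)
  obtain ⟨q₃, hFZ⟩ := hFZ T ((le_max_right _ _).trans hT)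
  refine ⟨max q₁ (max q₂ q₃), fun q hq hqq L _ _ _ _ hL => ?_⟩
  obtain ⟨hIf, U, Λ, hUI, hU1, hU2, hU3, hU4⟩ := hTF q hq ((le_max_left _ _).trans hqq) L hL
  obtain ⟨hH1, hH2, hH3⟩ := hFH q hq (((le_max_left _ _).trans (le_max_right _ _)).trans hqq)
  obtain ⟨hPf, hPpos, hZ⟩ := hFZ q hq (((le_max_right _ _).trans (le_max_right _ _)).trans hqq)
  rw [← hd] at hH2 hH3 hU3
  rw [← hs] at hH3 ⊢
  simp only [← hd] at hU4 hZ ⊢
  obtain ⟨X, hX⟩ : ∃ X : ℝ, X = T / Real.pi * (d / 2 * Real.log q) := ⟨_, rfl⟩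
  have hlq : 0 < Real.log q := Real.log_pos (by exact_mod_cast hq.one_lt)
  have hX0 : 0 < X := by
    rw [hX]
    have := Real.pi_pos
    positivity
  rw [← hX] at hH2 hH3
  simp only [← hX] at hZ ⊢
  obtain ⟨n, hn⟩ : ∃ n : ℝ, n = ((Pr F (qi F q)).ncard : ℝ) := ⟨_, rfl⟩
  have hn0 : 0 < n := by rw [hn]; exact_mod_cast hPpos
  rw [← hn] at hH2 hH3 hU3 hU4
  have hUf : U.Finite := hIf.subset hUI
  have hIrr : 0 ≤ ((Pool.Agent.H37.CA.Irr (L ≃ₐ[ℚ] L)).ncard : ℝ) := Nat.cast_nonneg _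
  -- the sums
  have hw1 := hU4 (fun g => ((LZ g T).ncard : ℝ)) ((1 + e) * X) (fun χ hχ =>
    ⟨Nat.cast_nonneg _, ((hH1 χ hχ).2.2.2).trans (hZ χ hχ).2.2⟩)
  have hw2 := hU4 (fun g => ((SZ g 0 T).ncard : ℝ)) ((1 + e) * X) (fun χ hχ =>
    ⟨Nat.cast_nonneg _, ((by exact_mod_cast (hH1 χ hχ).2.2.1 : ((SZ (Zx χ) 0 T).ncard : ℝ) ≤
      ((LZ (Zx χ) T).ncard : ℝ)).trans (hH1 χ hχ).2.2.2).trans (hZ χ hχ).2.2⟩)
  have hzcU : ∑ᶠ f ∈ U, zc (Λ f) (St T) ≤ (U.ncard : ℝ) * ((1 + e) * X) := by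
    have h1 : ∑ᶠ f ∈ U, zc (Λ f) (St T) ≤ ∑ᶠ f ∈ U, ((1 + e) * X) := by
      refine fsum_mono hUf fun f hf => ?_
      obtain ⟨_, _, ⟨χ, hχ, hΛ⟩, _⟩ := hU2 f hf
      rw [hΛ]
      exact (hZ χ hχ).2.2
    refine h1.trans (le_of_eq ?_)
    rw [finsum_mem_eq_finite_toFinset_sum _ hUf, Finset.sum_const, nsmul_eq_mul,
      Set.ncard_eq_toFinset_card _ hUf]
  have hu0 : (0 : ℝ) ≤ (U.ncard : ℝ) := Nat.cast_nonneg _
  obtain ⟨r1, r2⟩ := num_FG hd0 hX0.le hθ0 hθ1 he0 he2 heκ hn0.le hu0 hU3 (hH2.trans hw1) hzcU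
  have hUpos : 0 < U.ncard := by
    rcases Nat.eq_zero_or_pos U.ncard with h0 | h0
    · exfalso
      have hUe : U = ∅ := (Set.ncard_eq_zero hUf).1 h0
      have h1 := hH2.trans hw1
      rw [hUe, finsum_mem_empty, mul_zero, zero_add] at h1
      have h2 : 0 < X * n := mul_pos hX0 hn0
      have h3 : κ * (X * n) ≤ e * (1 + e) * (X * n) := by nlinarith
      have h4 := le_of_mul_le_mul_right h3 h2
      nlinarith
    · exact h0
  refine ⟨hIf, U, Λ, hUI, ?_, hUpos, fun f hf => ?_, r1, r2, ?_⟩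
  · refine le_trans ?_ hU1
    exact mul_le_mul_of_nonneg_right (by linarith) hIrr
  · obtain ⟨h1, h2, ⟨χ, hχ, hΛ⟩, h3, h4⟩ := hU2 f hf
    refine ⟨h1, h2, h3, h4, ?_, ?_⟩
    · rw [hΛ]; exact (hZ χ hχ).2.1
    · rw [hΛ]
      refine (hZ χ hχ).2.2.trans ?_
      exact mul_le_mul_of_nonneg_right (by linarith) hX0.le
  · have hSnn : 0 ≤ ∑ᶠ f ∈ U, ((SZ (Λ f) 0 T).ncard : ℝ) :=
      fsum_nonneg hUf fun _ _ => Nat.cast_nonneg _
    have hznn : 0 ≤ ∑ᶠ f ∈ U, zc (Λ f) (St T) := by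
      refine fsum_nonneg hUf fun f hf => ?_
      obtain ⟨_, _, ⟨χ, hχ, hΛ⟩, _⟩ := hU2 f hf
      rw [hΛ]
      exact (Nat.cast_nonneg _).trans (hH1 χ hχ).2.2.2
    rcases le_or_gt s ε₀ with hle | hgt
    · constructor
      · refine le_trans ?_ hSnn
        exact mul_nonpos_of_nonpos_of_nonneg
          (mul_nonpos_of_nonpos_of_nonneg (by linarith) hX0.le) hu0
      · refine le_trans ?_ hSnn
        exact mul_nonpos_of_nonpos_of_nonneg (by linarith) hznn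
    · exact num_FG hd0 hX0.le (by linarith) (by linarith) he0 he2 (by linarith : (s - ε₀) + 4 * e ≤ s)
        hn0.le hu0 hU3 (hH3.trans hw2) hzcU

end Pool.Agent.H65.CRG
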