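import Pool.Agent.H65.CRG.FM1
import Pool.Agent.H37.CV.SM

/-!
# Critical zeros, general degree: the assembly for the ray class characters
-/

set_option autoImplicit false

open NumberField NumberField.InfinitePlace Complex Filter Topology MeasureTheory Set

namespace Pool.Agent.H65.CRG

open Pool.Agent.H28.RC Pool.Agent.H25.HK Pool.Agent.H37.CV Pool.Agent.H65.CRZ

/-- the family is finite and not empty -/
theorem Pr_pos {K : Type} [Field K] [NumberField K] [IsCMField K]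
    (hIE : Pool.Agent.H37.CV.T_IE) (hOR : Pool.Agent.H37.CV.T_OR) {q : ℕ} (hq : q.Prime)
    (hPN : (1 - 1 / 2) * (nc (qi K q) (qi K q) : ℝ) ≤ ((Pr K (qi K q)).ncard : ℝ)) :
    (Pr K (qi K q)).Finite ∧ 0 < (Pr K (qi K q)).ncard := by
  have hPf : (Pr K (qi K q)).Finite := (hIE K q hq).1
  have hm : qi K q ≠ ⊥ := qi_ne_bot K q hq
  have hnc : 0 < nc (qi K q) (qi K q) := (hOR K (qi K q) (qi K q) hm le_rfl).2.1
  have hn0 : (0 : ℝ) < ((Pr K (qi K q)).ncard : ℝ) := by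
    refine lt_of_lt_of_le ?_ hPN
    have : (0 : ℝ) < (nc (qi K q) (qi K q) : ℝ) := by exact_mod_cast hnc
    linarith
  exact ⟨hPf, by exact_mod_cast hn0⟩

theorem pf_FZ (hRV : T_RV) (hLF : T_LF) (hCQ : T_CQ) (hIE : Pool.Agent.H37.CV.T_IE)
    (hPNC : Pool.Agent.H37.CA.T_PNC) (hOR : Pool.Agent.H37.CV.T_OR) : T_FZ := by
  intro K _ _ _ ε₀ hε₀
  have hpi := Real.pi_pos
  obtain ⟨ε, hεdef⟩ : ∃ ε : ℝ, ε = min ε₀ (1 / 10) := ⟨_, rfl⟩
  have hε : 0 < ε := by rw [hεdef]; exact lt_min hε₀ (by norm_num)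
  have hε1 : ε ≤ 1 / 10 := by rw [hεdef]; exact min_le_right _ _
  have hεε : ε ≤ ε₀ := by rw [hεdef]; exact min_le_left _ _
  obtain ⟨C₁, q₁, hC₁, hLF⟩ := hLF K
  obtain ⟨hn1, hdn, c, hc, hcq⟩ := hCQ K
  obtain ⟨b₁, hb₁, hb₁'⟩ := choose_b C₁
  obtain ⟨C₅, hC₅, hRV⟩ := hRV (nrComplexPlaces K) C₁ b₁ hC₁ hb₁ hb₁'
  refine ⟨max 1 (4 * Real.pi * C₅ / ε), lt_of_lt_of_le one_pos (le_max_left _ _), fun T hT => ?_⟩
  have hT1 : 1 ≤ T := (le_max_left _ _).trans hT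
  have hT0 : 0 < T := by linarith
  have hTC₅ : 4 * Real.pi * C₅ ≤ ε * T := by
    have h := (le_max_right _ _).trans hT
    rw [div_le_iff₀ hε] at h
    linarith
  obtain ⟨A₁, hA₁, hRV⟩ := hRV T hT0
  obtain ⟨q₅, hPNC⟩ := hPNC K (1 / 2) (by norm_num)
  obtain ⟨q₆, hq₆2, hlog⟩ := log_cqn hc (nrComplexPlaces K) hn1 (ε / 4) (div_pos hε (by norm_num))
  obtain ⟨q₇, hq₇⟩ : ∃ q₇ : ℕ, ∀ q : ℕ, q₇ ≤ q →
      max A₁ 1 ≤ c * (q : ℝ) ^ nrComplexPlaces K := by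
    have h1 : Tendsto (fun q : ℕ => c * (q : ℝ) ^ nrComplexPlaces K) atTop atTop :=
      ((tendsto_pow_atTop (by omega)).comp tendsto_natCast_atTop_atTop).const_mul_atTop hc
    exact eventually_atTop.1 (h1.eventually (eventually_ge_atTop _))
  refine ⟨max q₁ (max q₅ (max q₆ q₇)), fun q hq hqq => ?_⟩
  have hqa : q₁ ≤ q := (le_max_left _ _).trans hqq
  have hqe : q₅ ≤ q := ((le_max_left _ _).trans (le_max_right _ _)).trans hqq
  have hqf : q₆ ≤ q := (((le_max_left _ _).trans (le_max_right _ _)).trans (le_max_right _ _)).trans hqq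
  have hqg : q₇ ≤ q := (((le_max_right _ _).trans (le_max_right _ _)).trans (le_max_right _ _)).trans hqq
  replace hLF := hLF q hq hqa
  have hPN := hPNC q hq hqe
  obtain ⟨hlog1, hlog2⟩ := hlog q hqf
  have hAq := hq₇ q hqg
  obtain ⟨hAeq, hnm⟩ := hcq q hq
  obtain ⟨A, hA⟩ : ∃ A : ℝ, A = cB K (qi K q) := ⟨_, rfl⟩
  rw [← hAeq, ← hA] at hAq hlog1 hlog2
  rw [← hA] at hLF
  have hAA₁ : A₁ ≤ A := (le_max_left _ _).trans hAq
  have hlA : 0 ≤ Real.log A := Real.log_nonneg ((le_max_right _ _).trans hAq)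
  obtain ⟨hPf, hPpos⟩ := Pr_pos hIE hOR hq hPN
  have hlq : 0 ≤ Real.log q := Real.log_nonneg (by exact_mod_cast hq.one_lt.le)
  have hd2 : (Module.finrank ℚ K : ℝ) / 2 = nrComplexPlaces K := by
    rw [hdn]; push_cast; ring
  refine ⟨hPf, hPpos, fun χ hχ => ?_⟩
  obtain ⟨h1, h2⟩ := hRV A hAA₁ (Zx χ) (hLF χ hχ).2
  refine ⟨(hLF χ hχ).1, h1, ?_⟩
  rw [hd2]
  exact num_all hT0 hε hε1 hεε hlA (by positivity) hTC₅ hlog2 h2

theorem pf_FM (hLV : T_LV) (hCM : Pool.Agent.H65.CRZ.T_CM) (hLF : T_LF) (hFB : T_FB) (hIN : T_IN)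
    (hLE : T_LE) (hCQ : T_CQ) (hZM : Pool.Agent.H65.CRZ.T_ZM) (hQ1 : T_Q1) (hV0 : T_V0)
    (hIE : Pool.Agent.H37.CV.T_IE) (hPNC : Pool.Agent.H37.CA.T_PNC)
    (hOR : Pool.Agent.H37.CV.T_OR) : T_FM := by
  intro K _ _ _ N m R ε₁ hm0 hR hε₁ hε₁' ε₀ hε₀
  have hpi := Real.pi_pos
  obtain ⟨hn1, hdn, c, hc, hcq⟩ := hCQ K
  have hd2 : (Module.finrank ℚ K : ℝ) / 2 = nrComplexPlaces K := by
    rw [hdn]; push_cast; ring
  have hdpos : (0 : ℝ) < Module.finrank ℚ K := by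
    have : (1 : ℝ) ≤ nrComplexPlaces K := by exact_mod_cast hn1
    linarith
  obtain ⟨x₀, hx₀⟩ : ∃ x₀ : ℝ, x₀ = cQ N m R ((1 - 2 * ε₁) / Module.finrank ℚ K) := ⟨_, rfl⟩
  have hx₀1 : 1 ≤ x₀ := by
    rw [hx₀]
    exact hQ1 N m R _ hm0 (div_pos (by linarith) hdpos)
  obtain ⟨κ, hκ⟩ : ∃ κ : ℝ, κ = 1 - Real.log x₀ / R := ⟨_, rfl⟩
  have hκ1 : κ ≤ 1 := by
    have : 0 ≤ Real.log x₀ / R := div_nonneg (Real.log_nonneg hx₀1) hR.le
    linarith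
  rw [← hx₀, ← hκ, hd2]
  obtain ⟨ε, hεdef⟩ : ∃ ε : ℝ, ε = min ε₀ (1 / 10) := ⟨_, rfl⟩
  have hε : 0 < ε := by rw [hεdef]; exact lt_min hε₀ (by norm_num)
  have hε1 : ε ≤ 1 / 10 := by rw [hεdef]; exact min_le_right _ _
  have hεε : ε ≤ ε₀ := by rw [hεdef]; exact min_le_left _ _
  obtain ⟨δ, hδ⟩ : ∃ δ : ℝ, δ = ε * R / 8 := ⟨_, rfl⟩
  have hδ0 : 0 < δ := by rw [hδ]; positivity
  obtain ⟨Q₁, hQ₁⟩ : ∃ Q₁ : ℝ, Q₁ = x₀ + δ := ⟨_, rfl⟩
  have hQ₁1 : 1 ≤ Q₁ := by rw [hQ₁]; linarith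
  have hlQ : Real.log Q₁ / R ≤ 1 - κ + ε / 8 := by
    have h1 : Real.log Q₁ ≤ Real.log x₀ + δ := by
      have h2 : Q₁ = x₀ * (1 + δ / x₀) := by rw [hQ₁]; field_simp
      have h3 : 0 < 1 + δ / x₀ := by positivity
      rw [h2, Real.log_mul (by linarith) h3.ne']
      have h4 := Real.log_le_sub_one_of_pos h3
      have h5 : δ / x₀ ≤ δ := div_le_self hδ0.le hx₀1
      linarith
    have h2 : (Real.log x₀ + δ) / R = 1 - κ + ε / 8 := by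
      rw [hκ, hδ]; field_simp; ring
    rw [← h2]
    gcongr
  obtain ⟨C₁, q₁, hC₁, hLF⟩ := hLF K
  obtain ⟨C₂, b₂, hC₂, hb₂, hFB⟩ := hFB K N m R ε₁ hm0 hR hε₁ hε₁'
  obtain ⟨C₃, b₃, hC₃, hb₃, hIN⟩ := hIN K N m R ε₁ hm0 hR hε₁ hε₁'
  obtain ⟨b₁, hb₁, hb₁'⟩ := choose_b C₁
  obtain ⟨C₄, hC₄, hLV⟩ := hLV (nrComplexPlaces K) N m C₁ b₁ hm0 hC₁ hb₁ hb₁'
  obtain ⟨bs, hbs⟩ : ∃ bs : ℝ, bs = max (max b₂ b₃) (b₁ + 1) := ⟨_, rfl⟩
  have hbs2 : b₂ ≤ bs := by rw [hbs]; exact (le_max_left _ _).trans (le_max_left _ _)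
  have hbs3 : b₃ ≤ bs := by rw [hbs]; exact (le_max_right _ _).trans (le_max_left _ _)
  have hbs1 : b₁ + 1 ≤ bs := by rw [hbs]; exact le_max_right _ _
  obtain ⟨T₁, hT₁, hPh⟩ := Ph_bound bs C₂ (Real.log Q₁) (Real.log C₃)
    (ε * R / (8 * Real.pi)) (div_pos (by positivity) (by linarith))
  refine ⟨max T₁ (8 * Real.pi * C₄ / ε),
    lt_of_lt_of_le (by linarith : (0 : ℝ) < T₁) (le_max_left _ _), fun T hT => ?_⟩
  have hTT₁ : T₁ ≤ T := (le_max_left _ _).trans hT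
  have hT1 : 1 ≤ T := hT₁.trans hTT₁
  have hT0 : 0 < T := by linarith
  have hTC₄ : 8 * Real.pi * C₄ ≤ ε * T := by
    have h := (le_max_right _ _).trans hT
    rw [div_le_iff₀ hε] at h
    linarith
  have hPhT := hPh T hTT₁
  obtain ⟨D, hD⟩ : ∃ D : ℝ, D = Real.sqrt T := ⟨_, rfl⟩
  have hD1 : 1 ≤ D := by rw [hD]; exact Real.one_le_sqrt.2 hT1
  have hD0 : 0 < D := by linarith
  obtain ⟨b, hb⟩ : ∃ b : ℝ, b = bT bs T := ⟨_, rfl⟩
  have hbbs : bs ≤ b := by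
    rw [hb]
    unfold bT
    have h1 : 0 ≤ Real.log T / Real.log 2 :=
      div_nonneg (Real.log_nonneg hT1) (Real.log_pos (by norm_num)).le
    linarith
  obtain ⟨T', hT'⟩ : ∃ T' : ℝ, T' = T + D + 1 := ⟨_, rfl⟩
  have hT'0 : 0 < T' := by rw [hT']; linarith
  have hbC : C₁ * (2 : ℝ) ^ (-b) ≤ 1 / 100 := by
    refine le_trans ?_ hb₁'
    refine mul_le_mul_of_nonneg_left ?_ (by linarith)
    exact Real.rpow_le_rpow_of_exponent_le (by norm_num) (by linarith)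
  obtain ⟨A₀, hA₀, hLV⟩ := hLV T hT0
  obtain ⟨_, _, hV0⟩ := hV0 (nrComplexPlaces K) N m C₁ b hm0 hC₁ (by linarith) hbC
  obtain ⟨A₂, hA₂, hV0⟩ := hV0 T' hT'0
  obtain ⟨q₂, hFB⟩ := hFB b T' (by linarith) hT'0
  obtain ⟨q₃, hIN⟩ := hIN b T' (by linarith) hT'0
  obtain ⟨q₄, hLE⟩ := hLE K N m R ε₁ δ T' hm0 hR hε₁ hε₁' hδ0 hT'0
  obtain ⟨q₅, hPNC⟩ := hPNC K (1 / 2) (by norm_num)
  obtain ⟨q₆, hq₆2, hlog⟩ := log_cqn hc (nrComplexPlaces K) hn1 (ε / 4) (div_pos hε (by norm_num))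
  obtain ⟨q₇, hq₇⟩ : ∃ q₇ : ℕ, ∀ q : ℕ, q₇ ≤ q →
      max A₀ (max A₂ (Real.exp (3 * R + 3))) ≤ c * (q : ℝ) ^ nrComplexPlaces K := by
    have h1 : Tendsto (fun q : ℕ => c * (q : ℝ) ^ nrComplexPlaces K) atTop atTop :=
      ((tendsto_pow_atTop (by omega)).comp tendsto_natCast_atTop_atTop).const_mul_atTop hc
    exact eventually_atTop.1 (h1.eventually (eventually_ge_atTop _))
  refine ⟨max (max (max q₁ q₂) (max q₃ q₄)) (max q₅ (max q₆ q₇)), fun q hq hqq => ?_⟩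
  have hqa : q₁ ≤ q := (((le_max_left _ _).trans (le_max_left _ _)).trans (le_max_left _ _)).trans hqq
  have hqb : q₂ ≤ q := (((le_max_right _ _).trans (le_max_left _ _)).trans (le_max_left _ _)).trans hqq
  have hqc : q₃ ≤ q := (((le_max_left _ _).trans (le_max_right _ _)).trans (le_max_left _ _)).trans hqq
  have hqd : q₄ ≤ q := (((le_max_right _ _).trans (le_max_right _ _)).trans (le_max_left _ _)).trans hqq
  have hqe : q₅ ≤ q := ((le_max_left _ _).trans (le_max_right _ _)).trans hqq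
  have hqf : q₆ ≤ q := (((le_max_left _ _).trans (le_max_right _ _)).trans (le_max_right _ _)).trans hqq
  have hqg : q₇ ≤ q := (((le_max_right _ _).trans (le_max_right _ _)).trans (le_max_right _ _)).trans hqq
  replace hLF := hLF q hq hqa
  replace hFB := hFB q hq hqb
  replace hIN := hIN q hq hqc
  replace hLE := hLE q hq hqd
  have hPN := hPNC q hq hqe
  obtain ⟨hlog1, hlog2⟩ := hlog q hqf
  have hAq := hq₇ q hqg
  obtain ⟨hAeq, hnm⟩ := hcq q hq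
  obtain ⟨A, hA⟩ : ∃ A : ℝ, A = cB K (qi K q) := ⟨_, rfl⟩
  rw [← hAeq, ← hA] at hAq hlog1 hlog2
  rw [← hA] at hLF ⊢
  have hAA₀ : A₀ ≤ A := (le_max_left _ _).trans hAq
  have hAA₂ : A₂ ≤ A := ((le_max_left _ _).trans (le_max_right _ _)).trans hAq
  have hAe : Real.exp (3 * R + 3) ≤ A := ((le_max_right _ _).trans (le_max_right _ _)).trans hAq
  have hA0 : 0 < A := (Real.exp_pos _).trans_le hAe
  have hlA : 3 * R + 3 ≤ Real.log A := by rw [Real.le_log_iff_exp_le hA0]; exact hAe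
  have hL : Lg K q = 2 * Real.log A := by rw [Lg, hA]
  have hL6 : 5 * R ≤ Lg K q := by rw [hL]; linarith
  have hL0 : 0 < Lg K q := by rw [hL]; linarith
  -- the family
  obtain ⟨hPf, hPpos⟩ := Pr_pos hIE hOR hq hPN
  haveI : Fintype (Pr K (qi K q)) := hPf.fintype
  have hcard : (Fintype.card (Pr K (qi K q)) : ℝ) = (Pr K (qi K q)).ncard := by
    rw [← Nat.card_coe_set_eq, Nat.card_eq_fintype_card]
  have hn0 : (0 : ℝ) < ((Pr K (qi K q)).ncard : ℝ) := by exact_mod_cast hPpos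
  rw [← hx₀, ← hQ₁] at hLE
  obtain ⟨hfin, hineq⟩ := car_app hCM hR (by linarith : 4 ≤ b) hC₃ hT0 hD0 hQ₁1 hT' hL6 hL0
    hFB hIN hLE
  obtain ⟨n, hn⟩ : ∃ n : ℝ, n = ((Pr K (qi K q)).ncard : ℝ) := ⟨_, rfl⟩
  rw [← hn] at hineq hn0 hcard
  obtain ⟨S, hS⟩ : ∃ S : ℝ, S = ∑ i : Pr K (qi K q), zc (fQ N m R ε₁ q i.1)
    {ρ : ℂ | 1 / 2 ≤ ρ.re ∧ ρ.re < b ∧ ρ ∈ St T} := ⟨_, rfl⟩
  rw [← hS] at hineq
  obtain ⟨P, hP⟩ : ∃ P : ℝ, P = Ph bs C₂ (Real.log Q₁) (Real.log C₃) T := ⟨_, rfl⟩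
  have hP' : P = Real.log Q₁ / Real.pi + b / D * Real.sinh (Real.pi * (b / D)) *
      Real.log C₃ + (D + 2) * Real.cosh (Real.pi * (b / D)) * (C₂ * (2 : ℝ) ^ (-b)) := by
    rw [hP, Ph, ← hb, ← hD]
  rw [← hP, ← hD] at hPhT
  have hsg : 1 / 2 - sl K R q = R / Lg K q := by rw [sl]; ring
  have hRL : R / Lg K q ≤ 1 / 5 := by
    rw [div_le_iff₀ hL0]; linarith
  have hRL0 : 0 < R / Lg K q := div_pos hR hL0
  have hSle := num_car hD0 (by linarith : 0 ≤ sl K R q) (by linarith : sl K R q ≤ b)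
    (by linarith : 0 ≤ C₂) hC₃ hT0 hn0 hL0 hR hsg hP' hineq
  have hSle2 : S ≤ 2 * Real.log A / (4 * R) *
      (T * (Real.log Q₁ / Real.pi + ε * R / (8 * Real.pi))) * n := by
    refine hSle.trans ?_
    rw [hL]
    refine mul_le_mul_of_nonneg_right ?_ hn0.le
    exact mul_le_mul_of_nonneg_left hPhT (div_nonneg (by linarith) (by linarith))
  -- the single functions
  have hone : ∀ i : Pr K (qi K q),
      (CZ (Zx i.1) (VQ (nrComplexPlaces K) N m A (Zx i.1)) 0 T).Finite ∧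
      (T / Real.pi - C₄) * Real.log A -
        2 * zc (fQ N m R ε₁ q i.1)
          {ρ : ℂ | 1 / 2 ≤ ρ.re ∧ ρ.re < b ∧ ρ ∈ St T} ≤
        ((CZ (Zx i.1) (VQ (nrComplexPlaces K) N m A (Zx i.1)) 0 T).ncard : ℝ) := by
    rintro ⟨χ, hχ⟩
    obtain ⟨h1, h2⟩ := hLV A hAA₀ (Zx χ) (hLF χ hχ).2
    refine ⟨h1, le_trans ?_ h2⟩
    have e1 : ((b : ℂ) + (0 : ℝ) * I).re = b := by simp
    have e2 : ((b : ℂ) + (0 : ℝ) * I).im = 0 := by simp
    have h3 := one_chi hZM hA (by linarith : 1 < b) (by linarith : b₁ ≤ b) hD0 hT0 hT' χ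
      (fun s h3 h4 h5 => (hV0 A hAA₂ (Zx χ) (hLF χ hχ).2 s h3 h4 h5).1)
      ((hFB χ hχ ((b : ℂ) + (0 : ℝ) * I) (by rw [e1]; linarith) (by rw [e1]; linarith)
        (by rw [e2, abs_zero]; exact hT'0)).2.2 e1).1 (hfin χ hχ)
    show (T / Real.pi - C₄) * Real.log A -
        2 * zc (fQ N m R ε₁ q χ)
          {ρ : ℂ | 1 / 2 ≤ ρ.re ∧ ρ.re < b ∧ ρ ∈ St T} ≤ _
    linarith
  have hsum : n * ((T / Real.pi - C₄) * Real.log A) - 2 * S ≤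
      ∑ i : Pr K (qi K q),
        ((CZ (Zx i.1) (VQ (nrComplexPlaces K) N m A (Zx i.1)) 0 T).ncard : ℝ) := by
    have h1 := Finset.sum_le_sum fun (i : Pr K (qi K q)) (_ : i ∈ Finset.univ) => (hone i).2
    rw [Finset.sum_sub_distrib, Finset.sum_const, Finset.card_univ, ← Finset.mul_sum, ← hS,
      nsmul_eq_mul, hcard] at h1
    exact h1
  have hlq : 0 ≤ Real.log q := Real.log_nonneg (by exact_mod_cast hq.one_lt.le)
  refine ⟨fun χ hχ => (hone ⟨χ, hχ⟩).1, ?_⟩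
  rw [fsum_coe, ← hn]
  rcases le_or_gt κ ε₀ with hle | hgt
  · have h1 : (κ - ε₀) * (T / Real.pi * (nrComplexPlaces K * Real.log q)) * n ≤ 0 := by
      have h2 : 0 ≤ T / Real.pi * (nrComplexPlaces K * Real.log q) := by positivity
      have h3 : (κ - ε₀) * (T / Real.pi * (nrComplexPlaces K * Real.log q)) ≤ 0 :=
        mul_nonpos_of_nonpos_of_nonneg (by linarith) h2
      exact mul_nonpos_of_nonpos_of_nonneg h3 hn0.le
    refine h1.trans (Finset.sum_nonneg fun i _ => Nat.cast_nonneg _)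
  · refine le_trans ?_ hsum
    exact num_simple hT0 hε hε1 hεε (by linarith) (by positivity) hn0 hR hgt.le hκ1 hTC₄ hlog1
      hlQ hSle2

end Pool.Agent.H65.CRG
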