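import Pool.Agent.H65.CRG.Base
import Pool.Agent.H65.CRG.FM
import Pool.Agent.H65.CRG.FG
import Pool.Agent.H37.CV.All
import Pool.Agent.H37.CA.All
import Pool.Agent.H1.CRG.DR
import Pool.Agent.H1.CRG.Q1
import Pool.Agent.H11.CRG.FB
import Pool.Agent.H11.CRG.SB
import Pool.Agent.H14.CRG.G3
import Pool.Agent.H14.CRG.NG
import Pool.Agent.H14.CRG.QFB
import Pool.Agent.H14.CRG.S2R
import Pool.Agent.H19.CRG.LF
import Pool.Agent.H19.CRG.SY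
import Pool.Agent.H19.CRG.TF
import Pool.Agent.H19.CRG.V0
import Pool.Agent.H22.CRG.LE
import Pool.Agent.H26.CRG.SA
import Pool.Agent.H31.CRG.DE
import Pool.Agent.H33.CRG.S1R
import Pool.Agent.H34.CRG.CN
import Pool.Agent.H35.CRG.OP
import Pool.Agent.H36.CRG.IN
import Pool.Agent.H36.CRG.VG
import Pool.Agent.H37.CRG.SC
import Pool.Agent.H38.CRG.CQ
import Pool.Agent.H39.CRG.BM
import Pool.Agent.H40.CRG.B
import Pool.Agent.H43.CRG.CK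
import Pool.Agent.H47.CRG.AF
import Pool.Agent.H48.CRG.UB
import Pool.Agent.H54.CRG.QI
import Pool.Agent.H61.CRG.H1
import Pool.Agent.H64.CRG.MS
import Pool.Agent.H68.CRG.LV
import Pool.Agent.H68.CRG.RV
import Pool.Agent.H70.CRG.DL
import Pool.Agent.H75.CRG.QL
import Pool.Agent.H77.CRG.QE
import Pool.Agent.H77.CRG.QX
import Pool.Agent.H78.CRG.DI
import Pool.Agent.H78.CRG.DS
import Pool.Agent.H80.CRG.TR
import Pool.Agent.H81.CRG.SE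
import Pool.Agent.H86.CRG.DT
import Pool.Agent.H96.CRG.DB
import Pool.Agent.H97.CRG.CG
import Pool.Agent.H98.CRG.QW
import Pool.Agent.H99.CRG.BI

/-!
# Critical zeros, general degree: the complete proof
-/

set_option autoImplicit false

open NumberField

namespace Pool.Agent.H65.CRG

open Base

theorem d_VG : T_VG := Pool.Agent.H36.CRG.pf_VG c_G1
theorem d_G3 : T_G3 := Pool.Agent.H14.CRG.pf_G3 c_G3
theorem d_CQ : T_CQ := Pool.Agent.H38.CRG.pf_CQ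
theorem d_AF : T_AF := Pool.Agent.H47.CRG.pf_AF d_VG
theorem d_SB : T_SB := Pool.Agent.H11.CRG.pf_SB d_VG
theorem d_SA : T_SA := Pool.Agent.H26.CRG.pf_SA c_G1 d_VG
theorem d_SC : T_SC := Pool.Agent.H37.CRG.pf_SC d_VG d_SB
theorem d_BM : T_BM := Pool.Agent.H39.CRG.pf_BM c_SD d_G3 d_CQ
theorem d_DI : T_DI := Pool.Agent.H78.CRG.pf_DI c_G1 d_G3 d_SB d_SA d_SC d_CQ
-- the relations
theorem r_S1R : Pool.Agent.H31.CRG.T_S1R := Pool.Agent.H33.CRG.pf_S1R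
theorem r_S2R : Pool.Agent.H31.CRG.T_S2R := Pool.Agent.H14.CRG.pf_S2R r_S1R
theorem r_UB : Pool.Agent.H31.CRG.T_UB := Pool.Agent.H48.CRG.pf_UB c_EB
theorem r_QFB : Pool.Agent.H31.CRG.T_QFB := Pool.Agent.H14.CRG.pf_QFB r_S2R r_UB
theorem r_OP : Pool.Agent.H31.CRG.T_OP := Pool.Agent.H35.CRG.pf_OP d_VG
theorem r_DT : Pool.Agent.H31.CRG.T_DT := Pool.Agent.H86.CRG.pf_DT d_SB
theorem r_DL : Pool.Agent.H31.CRG.T_DL := Pool.Agent.H70.CRG.pf_DL r_DT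
theorem r_DS : Pool.Agent.H31.CRG.T_DS := Pool.Agent.H78.CRG.pf_DS r_DT
theorem r_DE : Pool.Agent.H31.CRG.T_DE := Pool.Agent.H31.CRG.pf_DE r_QFB c_G1 d_SA d_SC d_CQ
theorem r_DR : Pool.Agent.H31.CRG.T_DR := Pool.Agent.H1.CRG.pf_DR r_DT r_DE
theorem d_SE : T_SE := Pool.Agent.H81.CRG.pf_SE r_OP r_DT r_DL r_DS r_DR
theorem d_B : T_B := Pool.Agent.H40.CRG.pf_B d_AF d_SE d_DI d_BM d_G3 d_CQ
-- Levinson's method
theorem d_CG : T_CG := Pool.Agent.H97.CRG.pf_CG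
theorem d_NG : T_NG := Pool.Agent.H14.CRG.pf_NG c_AG d_CG
theorem d_TR : T_TR := Pool.Agent.H80.CRG.pf_TR
theorem d_QI : T_QI := Pool.Agent.H54.CRG.pf_QI
theorem d_V0 : T_V0 := Pool.Agent.H19.CRG.pf_V0 d_TR d_QI
theorem d_LV : T_LV := Pool.Agent.H68.CRG.pf_LV c_RP c_ZM d_NG c_BK c_G2 d_TR d_V0
theorem d_SY : T_SY := Pool.Agent.H19.CRG.pf_SY c_G2
theorem d_RV : T_RV := Pool.Agent.H68.CRG.pf_RV c_RP c_ZM c_N2 c_BK c_G2 d_V0 d_SY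
theorem d_CK : T_CK := Pool.Agent.H43.CRG.pf_CK
theorem d_BI : T_BI := Pool.Agent.H99.CRG.pf_BI
theorem d_DB : T_DB := Pool.Agent.H96.CRG.pf_DB d_BI d_CK d_QI
theorem d_Q1 : T_Q1 := Pool.Agent.H1.CRG.pf_Q1 d_QI
theorem d_QW : T_QW := Pool.Agent.H98.CRG.pf_QW d_QI
theorem d_QE : T_QE := Pool.Agent.H77.CRG.pf_QE
theorem d_QX : T_QX := Pool.Agent.H77.CRG.pf_QX d_QW d_QE d_Q1
theorem d_QL : T_QL := Pool.Agent.H75.CRG.pf_QL d_QI
theorem d_CN : T_CN := Pool.Agent.H34.CRG.pf_CN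
-- growth and mean squares
theorem d_H1 : T_H1 := Pool.Agent.H61.CRG.pf_H1 c_H2 c_G1
theorem d_LF : T_LF := Pool.Agent.H19.CRG.pf_LF d_H1 c_H2 d_CQ
theorem d_FB : T_FB := Pool.Agent.H11.CRG.pf_FB d_TR d_QI d_V0 c_H2 d_LF d_CQ
theorem d_MS : T_MS := Pool.Agent.H64.CRG.pf_MS d_B c_BB d_CQ d_LF
theorem d_IN : T_IN := Pool.Agent.H36.CRG.pf_IN d_MS c_TL d_LF d_FB c_H2 d_TR d_CQ
theorem d_LE : T_LE := Pool.Agent.H22.CRG.pf_LE d_B c_BB d_DB d_CK d_MS d_TR d_LF d_CQ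
-- the theorem
theorem d_FZ : T_FZ := pf_FZ d_RV d_LF d_CQ Pool.Agent.H37.CV.a_IE Pool.Agent.H37.CA.a_PNC
  Pool.Agent.H37.CV.a_OR
theorem d_FM : T_FM := pf_FM d_LV c_CM d_LF d_FB d_IN d_LE d_CQ c_ZM d_Q1 d_V0
  Pool.Agent.H37.CV.a_IE Pool.Agent.H37.CA.a_PNC Pool.Agent.H37.CV.a_OR
theorem d_FH : T_FH := pf_FH d_FM d_FZ d_QX d_QL d_CN d_LF d_CQ
theorem d_TF : T_TF := Pool.Agent.H19.CRG.pf_TF

/-- critical zeros of the Artin L-functions -/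
theorem FG_proved : T_FG := pf_FG d_TF d_FH d_FZ

theorem finrank_even (F : Type) [Field F] [NumberField F] [IsCMField F] :
    Even (Module.finrank ℚ F) := by
  obtain ⟨_, h, _⟩ := d_CQ F
  exact ⟨_, by rw [h, two_mul]⟩

end Pool.Agent.H65.CRG
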