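import Pool.Agent.H65.CRZ.TD
import Pool.Agent.H68.CRZ.AG
import Pool.Agent.H42.CRZ.RP
import Pool.Agent.H42.CRZ.ZM
import Pool.Agent.H77.CRZ.BK
import Pool.Agent.H77.CRZ.N2
import Pool.Agent.H19.CRZ.JN
import Pool.Agent.H19.CRZ.G3
import Pool.Agent.H56.CRZ.G2
import Pool.Agent.H38.CRZ.G1
import Pool.Agent.H60.CRZ.H2
import Pool.Agent.H60.CRZ.S2
import Pool.Agent.H81.CRZ.S1
import Pool.Agent.H11.CRZ.SD
import Pool.Agent.H6.CRZ.EA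
import Pool.Agent.H69.CRZ.EB
import Pool.Agent.H55.CRZ.CH
import Pool.Agent.H34.CRZ.EI
import Pool.Agent.H97.CRZ.GA
import Pool.Agent.H89.CRZ.DE
import Pool.Agent.H63.CRZ.MO
import Pool.Agent.H99.CRZ.BB
import Pool.Agent.H66.CRZ.TL
import Pool.Agent.H14.CRZ.CM
import Pool.Agent.H14.CRZ.CI
import Pool.Agent.H35.CRZ.CA

/-!
# Critical zeros, general degree: the closed facts of CRZ
-/

set_option autoImplicit false

namespace Pool.Agent.H65.CRG.Base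

open Pool.Agent.H65.CRZ

theorem c_AG : T_AG := Pool.Agent.H68.CRZ.pf_AG
theorem c_RP : T_RP := Pool.Agent.H42.CRZ.pf_RP
theorem c_ZM : T_ZM := Pool.Agent.H42.CRZ.pf_ZM
theorem c_JN : T_JN := Pool.Agent.H19.CRZ.pf_JN
theorem c_BK : T_BK := Pool.Agent.H77.CRZ.pf_BK c_JN
theorem c_N2 : T_N2 := Pool.Agent.H77.CRZ.pf_N2 c_AG
theorem c_G2 : T_G2 := Pool.Agent.H56.CRZ.pf_G2
theorem c_G1 : T_G1 := Pool.Agent.H38.CRZ.pf_G1
theorem c_G3 : T_G3 := Pool.Agent.H19.CRZ.pf_G3 c_G1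
theorem c_H2 : T_H2 := Pool.Agent.H60.CRZ.pf_H2
theorem c_S1 : T_S1 := Pool.Agent.H81.CRZ.pf_S1
theorem c_S2 : T_S2 := Pool.Agent.H60.CRZ.pf_S2 c_S1
theorem c_CH : T_CH := Pool.Agent.H55.CRZ.pf_CH
theorem c_EB : T_EB := Pool.Agent.H69.CRZ.pf_EB c_CH
theorem c_EI : T_EI := Pool.Agent.H34.CRZ.pf_EI
theorem c_GA : T_GA := Pool.Agent.H97.CRZ.pf_GA
theorem c_DE : T_DE := Pool.Agent.H89.CRZ.pf_DE
theorem c_EA : T_EA := Pool.Agent.H6.CRZ.pf_EA c_EB c_EI c_GA c_DE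
theorem c_MO : T_MO := Pool.Agent.H63.CRZ.pf_MO c_GA
theorem c_SD : T_SD := Pool.Agent.H11.CRZ.pf_SD c_S2 c_EA c_EB c_MO c_GA
theorem c_BB : T_BB := Pool.Agent.H99.CRZ.pf_BB
theorem c_TL : T_TL := Pool.Agent.H66.CRZ.pf_TL
theorem c_CA : T_CA := Pool.Agent.H35.CRZ.pf_CA
theorem c_CI : T_CI := Pool.Agent.H14.CRZ.pf_CI c_CA
theorem c_CM : T_CM := Pool.Agent.H14.CRZ.pf_CM c_CI

end Pool.Agent.H65.CRG.Base
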