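import Pool.Agent.H65.CRG.TD
import Pool.Agent.H65.CRZ.FM1

/-!
# Critical zeros, general degree: the proportion for the ray class characters
-/

set_option autoImplicit false

open NumberField NumberField.InfinitePlace Complex Filter Topology MeasureTheory Set

namespace Pool.Agent.H65.CRG

open Pool.Agent.H28.RC Pool.Agent.H25.HK Pool.Agent.H37.CV Pool.Agent.H65.CRZ

theorem LZ_sub (f : ℂ → ℂ) (T : ℝ) : LZ f T ⊆ {ρ : ℂ | ρ ∈ St T ∧ f ρ = 0} := by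
  rintro ρ ⟨h1, _, h3, h4⟩
  exact ⟨⟨h3, h4⟩, h1⟩

theorem SZ_sub (f : ℂ → ℂ) (T : ℝ) : SZ f 0 T ⊆ LZ f T := by
  rintro ρ ⟨h1, _, h3, h4, h5⟩
  exact ⟨h1, h3, h4, h5⟩

theorem CZ_sub (f g : ℂ → ℂ) (T : ℝ) : CZ f g 0 T ⊆ LZ f T := by
  rintro ρ ⟨h1, _, h3, h4, h5⟩
  exact ⟨h1, h3, h4, h5⟩

theorem CZ_sub_SZ (n : ℕ) (m : ℕ → ℝ) (A : ℝ) (Z : ℂ → ℂ) (T : ℝ) :
    CZ Z (VQ n 1 m A Z) 0 T ⊆ SZ Z 0 T := by
  rintro ρ ⟨h1, h2, h3, h4, h5⟩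
  refine ⟨h1, fun h6 => h2 ?_, h3, h4, h5⟩
  unfold VQ
  rw [Finset.sum_range_one, TK_succ, TK_zero, h1, h6]
  simp

theorem lz_le_zc {f : ℂ → ℂ} {T : ℝ} {z₀ : ℂ} (hf : Differentiable ℂ f) (hz : f z₀ ≠ 0)
    (hfin : {ρ : ℂ | ρ ∈ St T ∧ f ρ = 0}.Finite) : ((LZ f T).ncard : ℝ) ≤ zc f (St T) := by
  have hLf : (LZ f T).Finite := hfin.subset (LZ_sub f T)
  have hord : ∀ ρ : ℂ, f ρ = 0 → 1 ≤ analyticOrderNatAt f ρ := by
    intro ρ hρ
    have han : AnalyticAt ℂ f ρ := hf.analyticAt ρ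
    have htop : analyticOrderAt f ρ ≠ ⊤ :=
      Pool.Agent.H18.PZ.order_ne_top isPreconnected_univ
        (fun z _ => hf.analyticAt z) (mem_univ z₀) hz (mem_univ ρ)
    have h0 : analyticOrderAt f ρ ≠ 0 := by
      intro h
      exact (han.analyticOrderAt_eq_zero.1 h) hρ
    unfold analyticOrderNatAt
    have h1 : (analyticOrderAt f ρ).toNat ≠ 0 := by
      intro h
      rcases ENat.toNat_eq_zero.1 h with h | h
      · exact h0 h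
      · exact htop h
    omega
  unfold zc
  have h1 : ((LZ f T).ncard : ℝ) = ∑ᶠ ρ ∈ LZ f T, (1 : ℝ) := by
    rw [finsum_mem_eq_finite_toFinset_sum _ hLf, Finset.sum_const, nsmul_eq_mul, mul_one,
      Set.ncard_eq_toFinset_card _ hLf]
  rw [h1, finsum_mem_eq_finite_toFinset_sum _ hLf, finsum_mem_eq_finite_toFinset_sum _ hfin]
  have h2 : hLf.toFinset ⊆ hfin.toFinset := by
    intro ρ hρ
    rw [Set.Finite.mem_toFinset] at hρ ⊢
    exact LZ_sub f T hρ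
  calc ∑ i ∈ hLf.toFinset, (1 : ℝ)
      ≤ ∑ i ∈ hLf.toFinset, (analyticOrderNatAt f i : ℝ) := by
        refine Finset.sum_le_sum fun ρ hρ => ?_
        rw [Set.Finite.mem_toFinset] at hρ
        exact_mod_cast hord ρ hρ.1
    _ ≤ ∑ i ∈ hfin.toFinset, (analyticOrderNatAt f i : ℝ) :=
        Finset.sum_le_sum_of_subset_of_nonneg h2 fun _ _ _ => Nat.cast_nonneg _

/-- sums over the family -/
theorem fsum_mono {α : Type} {s : Set α} (hs : s.Finite) {g h : α → ℝ}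
    (hgh : ∀ x ∈ s, g x ≤ h x) : ∑ᶠ x ∈ s, g x ≤ ∑ᶠ x ∈ s, h x := by
  rw [finsum_mem_eq_finite_toFinset_sum _ hs, finsum_mem_eq_finite_toFinset_sum _ hs]
  refine Finset.sum_le_sum fun x hx => hgh x ?_
  rwa [Set.Finite.mem_toFinset] at hx

theorem fsum_nonneg {α : Type} {s : Set α} (hs : s.Finite) {g : α → ℝ}
    (hg : ∀ x ∈ s, 0 ≤ g x) : 0 ≤ ∑ᶠ x ∈ s, g x := by
  rw [finsum_mem_eq_finite_toFinset_sum _ hs]
  refine Finset.sum_nonneg fun x hx => hg x ?_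
  rwa [Set.Finite.mem_toFinset] at hx

/-- the inequality for the auxiliary functions, with a constant -/
theorem fm_const (hFM : T_FM) (K : Type) [Field K] [NumberField K] [IsCMField K] (N : ℕ)
    (m : ℕ → ℝ) (R ε₁ κ : ℝ) (hm : 0 < 1 + pm N m (1 / 2)) (hR : 0 < R) (hε₁ : 0 < ε₁)
    (hε₁' : ε₁ < 1 / 2)
    (hκ : κ < 1 - Real.log (cQ N m R ((1 - 2 * ε₁) / Module.finrank ℚ K)) / R) :
    ∃ T₀ : ℝ, 0 < T₀ ∧ ∀ T : ℝ, T₀ ≤ T → ∃ q₀ : ℕ, ∀ q : ℕ, q.Prime → q₀ ≤ q →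
      κ * (T / Real.pi * ((Module.finrank ℚ K : ℝ) / 2 * Real.log q)) * (Pr K (qi K q)).ncard ≤
        ∑ᶠ χ ∈ Pr K (qi K q),
          ((CZ (Zx χ) (VQ (nrComplexPlaces K) N m (cB K (qi K q)) (Zx χ)) 0 T).ncard : ℝ) := by
  obtain ⟨T₀, hT₀, h⟩ := hFM K N m R ε₁ hm hR hε₁ hε₁'
    (1 - Real.log (cQ N m R ((1 - 2 * ε₁) / Module.finrank ℚ K)) / R - κ) (by linarith)
  refine ⟨T₀, hT₀, fun T hT => ?_⟩
  obtain ⟨q₀, h⟩ := h T hT
  refine ⟨q₀, fun q hq hqq => ?_⟩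
  have h1 := (h q hq hqq).2
  rwa [sub_sub_cancel] at h1

theorem pm_lin {lam : ℝ} (hlam : 0 < lam) (hlam2 : lam < 2) :
    0 < 1 + pm 1 (fun _ => lam / (1 - lam / 2)) (1 / 2) := by
  unfold pm
  rw [Finset.sum_range_one]
  have h1 : 0 < 1 - lam / 2 := by linarith
  positivity

/-- the simple zeros from a linear polynomial -/
theorem simple_of (hFM : T_FM) (hQL : T_QL) (K : Type) [Field K] [NumberField K] [IsCMField K]
    (R lam ε₁ κ x : ℝ) (hR : 0 < R) (hlam : 0 < lam) (hlam2 : lam < 2) (hε₁ : 0 < ε₁)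
    (hε₁' : ε₁ < 1 / 2) (hx : x = (1 - 2 * ε₁) / Module.finrank ℚ K) (hx0 : 0 < x)
    (hκ : κ < 1 - Real.log (cc R lam x) / R) :
    ∃ m : ℕ → ℝ, ∃ T₀ : ℝ, 0 < T₀ ∧ ∀ T : ℝ, T₀ ≤ T → ∃ q₀ : ℕ, ∀ q : ℕ, q.Prime → q₀ ≤ q →
      κ * (T / Real.pi * ((Module.finrank ℚ K : ℝ) / 2 * Real.log q)) * (Pr K (qi K q)).ncard ≤
        ∑ᶠ χ ∈ Pr K (qi K q),
          ((CZ (Zx χ) (VQ (nrComplexPlaces K) 1 m (cB K (qi K q)) (Zx χ)) 0 T).ncard : ℝ) := by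
  refine ⟨fun _ => lam / (1 - lam / 2), ?_⟩
  refine fm_const hFM K 1 _ R ε₁ κ (pm_lin hlam hlam2) hR hε₁ hε₁' ?_
  rw [← hx, hQL R lam x hR hx0 hlam hlam2]
  exact hκ

theorem pf_FH (hFM : T_FM) (hFZ : T_FZ) (hQX : T_QX) (hQL : T_QL) (hCN : T_CN) (hLF : T_LF)
    (hCQ : T_CQ) : T_FH := by
  intro K _ _ _
  obtain ⟨hn1, hdn, _⟩ := hCQ K
  obtain ⟨hcn1, hcn2, hcn3⟩ := hCN
  obtain ⟨d, hd⟩ : ∃ d : ℕ, d = Module.finrank ℚ K := ⟨_, rfl⟩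
  -- the simple zeros
  have hS : ∃ m : ℕ → ℝ, ∃ T₀ : ℝ, 0 < T₀ ∧ ∀ T : ℝ, T₀ ≤ T → ∃ q₀ : ℕ, ∀ q : ℕ, q.Prime →
      q₀ ≤ q → (Pr K (qi K q)).Finite →
      ks (Module.finrank ℚ K) * (T / Real.pi * ((Module.finrank ℚ K : ℝ) / 2 * Real.log q)) *
        (Pr K (qi K q)).ncard ≤
        ∑ᶠ χ ∈ Pr K (qi K q),
          ((CZ (Zx χ) (VQ (nrComplexPlaces K) 1 m (cB K (qi K q)) (Zx χ)) 0 T).ncard : ℝ) := by
    by_cases h2 : d = 2
    · have hks : ks (Module.finrank ℚ K) = 345 / 1000 := by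
        unfold ks; rw [← hd, if_pos h2]
      obtain ⟨m, T₀, hT₀, h⟩ := simple_of hFM hQL K (5 / 4) (26 / 25) (1 / 1000) (345 / 1000)
        (499 / 1000) (by norm_num) (by norm_num) (by norm_num) (by norm_num) (by norm_num)
        (by rw [← hd, h2]; norm_num) (by norm_num) hcn1
      refine ⟨m, T₀, hT₀, fun T hT => ?_⟩
      obtain ⟨q₀, h⟩ := h T hT
      exact ⟨q₀, fun q hq hqq _ => by rw [hks]; exact h q hq hqq⟩
    by_cases h4 : d = 4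
    · have hks : ks (Module.finrank ℚ K) = 122 / 1000 := by
        unfold ks; rw [← hd, if_neg h2, if_pos h4]
      obtain ⟨m, T₀, hT₀, h⟩ := simple_of hFM hQL K 2 (13 / 12) (1 / 5000) (122 / 1000)
        (2499 / 10000) (by norm_num) (by norm_num) (by norm_num) (by norm_num) (by norm_num)
        (by rw [← hd, h4]; norm_num) (by norm_num) hcn2
      refine ⟨m, T₀, hT₀, fun T hT => ?_⟩
      obtain ⟨q₀, h⟩ := h T hT
      exact ⟨q₀, fun q hq hqq _ => by rw [hks]; exact h q hq hqq⟩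
    by_cases h6 : d = 6
    · have hks : ks (Module.finrank ℚ K) = 35 / 10000 := by
        unfold ks; rw [← hd, if_neg h2, if_neg h4, if_pos h6]
      obtain ⟨m, T₀, hT₀, h⟩ := simple_of hFM hQL K (5 / 2) (12 / 11) (1 / 5000) (35 / 10000)
        (1666 / 10000) (by norm_num) (by norm_num) (by norm_num) (by norm_num) (by norm_num)
        (by rw [← hd, h6]; norm_num) (by norm_num) hcn3
      refine ⟨m, T₀, hT₀, fun T hT => ?_⟩
      obtain ⟨q₀, h⟩ := h T hT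
      exact ⟨q₀, fun q hq hqq _ => by rw [hks]; exact h q hq hqq⟩
    · have hks : ks (Module.finrank ℚ K) = 0 := by
        unfold ks; rw [← hd, if_neg h2, if_neg h4, if_neg h6]
      refine ⟨fun _ => 0, 1, one_pos, fun T _ => ⟨0, fun q _ _ hf => ?_⟩⟩
      rw [hks, zero_mul, zero_mul]
      exact fsum_nonneg hf fun _ _ => Nat.cast_nonneg _
  -- all zeros on the line
  have hL : ∃ κ : ℝ, 2 / (3 * (Module.finrank ℚ K : ℝ)) < κ ∧ ∃ (N : ℕ) (m : ℕ → ℝ),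
      ∃ T₀ : ℝ, 0 < T₀ ∧ ∀ T : ℝ, T₀ ≤ T → ∃ q₀ : ℕ, ∀ q : ℕ, q.Prime → q₀ ≤ q →
      κ * (T / Real.pi * ((Module.finrank ℚ K : ℝ) / 2 * Real.log q)) * (Pr K (qi K q)).ncard ≤
        ∑ᶠ χ ∈ Pr K (qi K q),
          ((CZ (Zx χ) (VQ (nrComplexPlaces K) N m (cB K (qi K q)) (Zx χ)) 0 T).ncard : ℝ) := by
    by_cases h2 : d = 2
    · obtain ⟨m, h⟩ := simple_of hFM hQL K (5 / 4) (26 / 25) (1 / 1000) (345 / 1000)
        (499 / 1000) (by norm_num) (by norm_num) (by norm_num) (by norm_num) (by norm_num)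
        (by rw [← hd, h2]; norm_num) (by norm_num) hcn1
      exact ⟨345 / 1000, by rw [← hd, h2]; norm_num, 1, m, h⟩
    · have h4 : 4 ≤ d := by omega
      have h4' : (4 : ℝ) ≤ d := by exact_mod_cast h4
      have hd0 : (0 : ℝ) < d := by linarith
      obtain ⟨x, hx⟩ : ∃ x : ℝ, x = (1 - 2 * (1 / 1000)) / d := ⟨_, rfl⟩
      have hx0 : 0 < x := by rw [hx]; exact div_pos (by norm_num) hd0
      have hx4 : x ≤ 1 / 4 := by
        rw [hx, div_le_iff₀ hd0]; linarith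
      obtain ⟨N, m, hm, hlt⟩ := hQX x hx0 hx4
      refine ⟨17 / 25 * x, ?_, N, m, ?_⟩
      · rw [← hd, hx, div_lt_iff₀ (by linarith)]
        field_simp
        norm_num
      · refine fm_const hFM K N m (1 / x) (1 / 1000) (17 / 25 * x) hm (by positivity) (by norm_num)
          (by norm_num) ?_
        rw [← hd, ← hx]
        exact hlt
  obtain ⟨m₁, T₁, hT₁, hS⟩ := hS
  obtain ⟨κ, hκ, N, m₂, T₂, hT₂, hL⟩ := hL
  obtain ⟨T₃, hT₃, hFZ⟩ := hFZ K 1 one_pos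
  obtain ⟨C₁, q₃, hC₁, hLF⟩ := hLF K
  obtain ⟨b₁, hb₁, hb₁'⟩ := choose_b C₁
  refine ⟨κ, hκ, max T₁ (max T₂ T₃), lt_of_lt_of_le hT₁ (le_max_left _ _), fun T hT => ?_⟩
  obtain ⟨q₁, hS⟩ := hS T ((le_max_left _ _).trans hT)
  obtain ⟨q₂, hL⟩ := hL T (((le_max_left _ _).trans (le_max_right _ _)).trans hT)
  obtain ⟨q₄, hFZ⟩ := hFZ T (((le_max_right _ _).trans (le_max_right _ _)).trans hT)
  refine ⟨max (max q₁ q₂) (max q₃ q₄), fun q hq hqq => ?_⟩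
  obtain ⟨hPf, hPpos, hFZ⟩ := hFZ q hq (((le_max_right _ _).trans (le_max_right _ _)).trans hqq)
  replace hS := hS q hq (((le_max_left _ _).trans (le_max_left _ _)).trans hqq) hPf
  replace hL := hL q hq (((le_max_right _ _).trans (le_max_left _ _)).trans hqq)
  replace hLF := hLF q hq (((le_max_left _ _).trans (le_max_right _ _)).trans hqq)
  have hfin : ∀ χ ∈ Pr K (qi K q), (LZ (Zx χ) T).Finite ∧ (SZ (Zx χ) 0 T).Finite := fun χ hχ =>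
    ⟨(hFZ χ hχ).2.1.subset (LZ_sub _ _), ((hFZ χ hχ).2.1.subset (LZ_sub _ _)).subset (SZ_sub _ _)⟩
  refine ⟨fun χ hχ => ⟨(hfin χ hχ).1, (hfin χ hχ).2, Set.ncard_le_ncard (SZ_sub _ _)
    (hfin χ hχ).1, ?_⟩, hL.trans (fsum_mono hPf fun χ hχ => ?_),
    hS.trans (fsum_mono hPf fun χ hχ => ?_)⟩
  · refine lz_le_zc (z₀ := (b₁ : ℂ)) (hLF χ hχ).2.diff ?_ (hFZ χ hχ).2.1
    intro h0
    have h1 := (hLF χ hχ).2.one (b₁ : ℂ) (by simp; linarith)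
    rw [h0] at h1
    simp only [zero_sub, norm_neg, norm_one, Complex.ofReal_re] at h1
    linarith
  · exact_mod_cast Set.ncard_le_ncard (CZ_sub _ _ _) (hfin χ hχ).1
  · exact_mod_cast Set.ncard_le_ncard (CZ_sub_SZ _ _ _ _ _) (hfin χ hχ).2

end Pool.Agent.H65.CRG
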