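import Pool.Agent.H65.CRG.TL
import Pool.Agent.H65.CRG.TN
import Pool.Agent.H37.CA.Targets2

/-!
# Zeros on the critical line, general degree: targets, part D (growth, mean squares, assembly)
-/

set_option autoImplicit false

open NumberField NumberField.InfinitePlace Complex Filter Topology MeasureTheory

namespace Pool.Agent.H65.CRG

open Pool.Agent.H28.RC Pool.Agent.H25.HK Pool.Agent.H37.CV Pool.Agent.H65.CRZ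

/-! ### Growth -/

/-- (H1) growth of the `L`-functions. -/
def T_H1 : Prop :=
  ∀ (K : Type) [Field K] [NumberField K] [IsTotallyComplex K],
    ∃ C : ℝ, 1 ≤ C ∧ ∀ χ : RCC K, χ.f ≠ ⊤ → 1 ≤ cB K χ.f → ∀ Z : ℂ → ℂ, IsEnt χ Z →
      ∀ s : ℂ, -1 ≤ s.re → ‖Z s‖ ≤ (cB K χ.f * (2 + |s.im|)) ^ C

/-- (LF) the `L`-functions have a functional equation of degree `2 n`. -/
def T_LF : Prop :=
  ∀ (K : Type) [Field K] [NumberField K] [IsCMField K],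
    ∃ (C : ℝ) (q₀ : ℕ), 1 ≤ C ∧ ∀ q : ℕ, q.Prime → q₀ ≤ q → ∀ χ ∈ Pr K (qi K q),
      IsEnt χ (Zx χ) ∧ LFg (nrComplexPlaces K) C (cB K (qi K q)) (Zx χ)

/-- (FB) the auxiliary function far to the right. -/
def T_FB : Prop :=
  ∀ (K : Type) [Field K] [NumberField K] [IsCMField K] (N : ℕ) (m : ℕ → ℝ) (R ε₁ : ℝ),
    0 < 1 + pm N m (1 / 2) → 0 < R → 0 < ε₁ → ε₁ < 1 / 2 →
    ∃ C b₀ : ℝ, 1 ≤ C ∧ 4 ≤ b₀ ∧ ∀ b T : ℝ, b₀ ≤ b → 0 < T → ∃ q₀ : ℕ, ∀ q : ℕ, q.Prime →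
      q₀ ≤ q → ∀ χ ∈ Pr K (qi K q), ∀ s : ℂ, 1 / 4 < s.re → s.re < 2 * b → |s.im| < T →
        DifferentiableAt ℂ (fQ N m R ε₁ q χ) s ∧ (4 ≤ s.re → ‖fQ N m R ε₁ q χ s‖ ≤ C) ∧
        (s.re = b → fQ N m R ε₁ q χ s ≠ 0 ∧
          |Real.log ‖fQ N m R ε₁ q χ s‖| ≤ C * (2 : ℝ) ^ (-b) ∧
          ‖deriv (fQ N m R ε₁ q χ) s‖ ≤ C * (2 : ℝ) ^ (-b) * ‖fQ N m R ε₁ q χ s‖)

/-! ### Mean squares -/

/-- (MS) mean squares on the left line, with a shift. -/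
def T_MS : Prop :=
  ∀ (K : Type) [Field K] [NumberField K] [IsCMField K] (R ε₁ : ℝ), 0 < R → 0 < ε₁ →
    ε₁ < 1 / 2 → ∃ C B : ℝ, 0 < C ∧ 0 ≤ B ∧
    ∀ η : ℝ, 0 < η → ∃ q₀ : ℕ, ∀ q : ℕ, q.Prime → q₀ ≤ q → ∀ (a : ℂ) (u : ℝ),
      ‖a‖ ≤ R / (2 * Lg K q) →
      ∑ᶠ χ ∈ Pr K (qi K q), ‖Zx χ (sl K R q + u * I + a) *
          ml (Mq ε₁ q) (sl K R q) χ.ψ (sl K R q + u * I)‖ ^ 2 ≤
        (C + η * (1 + |u|) ^ B) * nc (qi K q) (qi K q)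

/-- (IN) mean squares of the auxiliary function. -/
def T_IN : Prop :=
  ∀ (K : Type) [Field K] [NumberField K] [IsCMField K] (N : ℕ) (m : ℕ → ℝ) (R ε₁ : ℝ),
    0 < 1 + pm N m (1 / 2) → 0 < R → 0 < ε₁ → ε₁ < 1 / 2 → ∃ C b₀ : ℝ, 1 ≤ C ∧ 4 ≤ b₀ ∧
    ∀ b T : ℝ, b₀ ≤ b → 0 < T → ∃ q₀ : ℕ, ∀ q : ℕ, q.Prime → q₀ ≤ q →
      ∀ x t : ℝ, sl K R q ≤ x → x ≤ b → |t| ≤ T →
      ∑ᶠ χ ∈ Pr K (qi K q), ‖fQ N m R ε₁ q χ (x + t * I)‖ ^ 2 ≤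
        C * (Pr K (qi K q)).ncard

/-- (LE) the mean square on the left line. -/
def T_LE : Prop :=
  ∀ (K : Type) [Field K] [NumberField K] [IsCMField K] (N : ℕ) (m : ℕ → ℝ) (R ε₁ δ T : ℝ),
    0 < 1 + pm N m (1 / 2) → 0 < R → 0 < ε₁ → ε₁ < 1 / 2 → 0 < δ → 0 < T →
    ∃ q₀ : ℕ, ∀ q : ℕ, q.Prime → q₀ ≤ q → ∀ t : ℝ, |t| ≤ T →
      ∑ᶠ χ ∈ Pr K (qi K q), ‖fQ N m R ε₁ q χ (sl K R q + t * I)‖ ^ 2 ≤
        (cQ N m R ((1 - 2 * ε₁) / Module.finrank ℚ K) + δ) * (Pr K (qi K q)).ncard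

/-! ### The theorem -/

/-- (FZ) the `L`-functions of the primitive ray class characters and their zeros. -/
def T_FZ : Prop :=
  ∀ (K : Type) [Field K] [NumberField K] [IsCMField K] (ε : ℝ), 0 < ε →
    ∃ T₀ : ℝ, 0 < T₀ ∧ ∀ T : ℝ, T₀ ≤ T → ∃ q₀ : ℕ, ∀ q : ℕ, q.Prime → q₀ ≤ q →
      (Pr K (qi K q)).Finite ∧ 0 < (Pr K (qi K q)).ncard ∧
      ∀ χ ∈ Pr K (qi K q), IsEnt χ (Zx χ) ∧ {ρ : ℂ | ρ ∈ St T ∧ Zx χ ρ = 0}.Finite ∧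
        zc (Zx χ) (St T) ≤
          (1 + ε) * (T / Real.pi * ((Module.finrank ℚ K : ℝ) / 2 * Real.log q))

/-- (FM) the zeros on the critical line. -/
def T_FM : Prop :=
  ∀ (K : Type) [Field K] [NumberField K] [IsCMField K] (N : ℕ) (m : ℕ → ℝ) (R ε₁ : ℝ),
    0 < 1 + pm N m (1 / 2) → 0 < R → 0 < ε₁ → ε₁ < 1 / 2 →
    ∀ ε : ℝ, 0 < ε → ∃ T₀ : ℝ, 0 < T₀ ∧ ∀ T : ℝ, T₀ ≤ T → ∃ q₀ : ℕ, ∀ q : ℕ, q.Prime → q₀ ≤ q →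
      (∀ χ ∈ Pr K (qi K q),
        (CZ (Zx χ) (VQ (nrComplexPlaces K) N m (cB K (qi K q)) (Zx χ)) 0 T).Finite) ∧
      (1 - Real.log (cQ N m R ((1 - 2 * ε₁) / Module.finrank ℚ K)) / R - ε) *
          (T / Real.pi * ((Module.finrank ℚ K : ℝ) / 2 * Real.log q)) * (Pr K (qi K q)).ncard ≤
        ∑ᶠ χ ∈ Pr K (qi K q),
          ((CZ (Zx χ) (VQ (nrComplexPlaces K) N m (cB K (qi K q)) (Zx χ)) 0 T).ncard : ℝ)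

/-- the zeros on the critical line -/
def LZ (f : ℂ → ℂ) (T : ℝ) : Set ℂ := {ρ : ℂ | f ρ = 0 ∧ ρ.re = 1 / 2 ∧ 0 < ρ.im ∧ ρ.im < T}

/-- the proportion of the simple zeros on the critical line for the degrees `2`, `4`, `6` -/
noncomputable def ks (d : ℕ) : ℝ :=
  if d = 2 then 345 / 1000 else if d = 4 then 122 / 1000 else if d = 6 then 35 / 10000 else 0

/-- (FH) the proportion of the zeros on the critical line, for the ray class characters. -/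
def T_FH : Prop :=
  ∀ (K : Type) [Field K] [NumberField K] [IsCMField K], ∃ κ : ℝ,
    2 / (3 * (Module.finrank ℚ K : ℝ)) < κ ∧
    ∃ T₀ : ℝ, 0 < T₀ ∧ ∀ T : ℝ, T₀ ≤ T → ∃ q₀ : ℕ, ∀ q : ℕ, q.Prime → q₀ ≤ q →
      (∀ χ ∈ Pr K (qi K q), (LZ (Zx χ) T).Finite ∧ (SZ (Zx χ) 0 T).Finite ∧
        (SZ (Zx χ) 0 T).ncard ≤ (LZ (Zx χ) T).ncard ∧
        ((LZ (Zx χ) T).ncard : ℝ) ≤ zc (Zx χ) (St T)) ∧
      κ * (T / Real.pi * ((Module.finrank ℚ K : ℝ) / 2 * Real.log q)) * (Pr K (qi K q)).ncard ≤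
        ∑ᶠ χ ∈ Pr K (qi K q), ((LZ (Zx χ) T).ncard : ℝ) ∧
      ks (Module.finrank ℚ K) * (T / Real.pi * ((Module.finrank ℚ K : ℝ) / 2 * Real.log q)) *
          (Pr K (qi K q)).ncard ≤
        ∑ᶠ χ ∈ Pr K (qi K q), ((SZ (Zx χ) 0 T).ncard : ℝ)

/-- (TF) from the ray class characters to the irreducible characters. -/
def T_TF : Prop :=
  ∀ (F : Type) [Field F] [NumberField F] [IsCMField F] [IsGalois ℚ F] (ε : ℝ), 0 < ε →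
    ∃ q₀ : ℕ, ∀ q : ℕ, q.Prime → q₀ ≤ q →
      ∀ (L : Type) [Field L] [NumberField L] [Algebra F L] [IsGalois ℚ L],
      Pool.Agent.H37.CA.IsRCF F L (qi F q) →
      (Pool.Agent.H37.CA.Irr (L ≃ₐ[ℚ] L)).Finite ∧
      ∃ (U : Set ((L ≃ₐ[ℚ] L) → ℂ)) (Λ : ((L ≃ₐ[ℚ] L) → ℂ) → ℂ → ℂ),
        U ⊆ Pool.Agent.H37.CA.Irr (L ≃ₐ[ℚ] L) ∧
        (1 - ε) * (Pool.Agent.H37.CA.Irr (L ≃ₐ[ℚ] L)).ncard ≤ U.ncard ∧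
        (∀ f ∈ U, f 1 = Module.finrank ℚ F ∧ Pool.Agent.H37.CA.nu f = 0 ∧
          (∃ χ ∈ Pr F (qi F q), Λ f = Zx χ) ∧ Differentiable ℂ (Λ f) ∧
          ∀ (D : Pool.Agent.H37.CA.Frb L) (V : Type) [AddCommGroup V] [Module ℂ V]
            [FiniteDimensional ℂ V] (ρ : Representation ℂ (L ≃ₐ[ℚ] L) V), f = ρ.character →
            ∀ s : ℂ, 1 < s.re → HasProd (fun p => (D.rep V ρ).euler p s) (Λ f s)) ∧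
        (Module.finrank ℚ F : ℝ) * U.ncard ≤ (1 + ε) * (Pr F (qi F q)).ncard ∧
        ∀ (w : (ℂ → ℂ) → ℝ) (W : ℝ), (∀ χ ∈ Pr F (qi F q), 0 ≤ w (Zx χ) ∧ w (Zx χ) ≤ W) →
          ∑ᶠ χ ∈ Pr F (qi F q), w (Zx χ) ≤
            (Module.finrank ℚ F : ℝ) * (∑ᶠ f ∈ U, w (Λ f)) + ε * W * (Pr F (qi F q)).ncard

/-- (FG) the zeros of the Artin `L`-functions. -/
def T_FG : Prop :=
  ∀ (F : Type) [Field F] [NumberField F] [IsCMField F] [IsGalois ℚ F] (ε : ℝ), 0 < ε →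
    ∃ T₀ : ℝ, 0 < T₀ ∧ ∀ T : ℝ, T₀ ≤ T → ∃ q₀ : ℕ, ∀ q : ℕ, q.Prime → q₀ ≤ q →
      ∀ (L : Type) [Field L] [NumberField L] [Algebra F L] [IsGalois ℚ L],
      Pool.Agent.H37.CA.IsRCF F L (qi F q) →
      (Pool.Agent.H37.CA.Irr (L ≃ₐ[ℚ] L)).Finite ∧
      ∃ (U : Set ((L ≃ₐ[ℚ] L) → ℂ)) (Λ : ((L ≃ₐ[ℚ] L) → ℂ) → ℂ → ℂ),
        U ⊆ Pool.Agent.H37.CA.Irr (L ≃ₐ[ℚ] L) ∧
        (1 - ε) * (Pool.Agent.H37.CA.Irr (L ≃ₐ[ℚ] L)).ncard ≤ U.ncard ∧ 0 < U.ncard ∧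
        (∀ f ∈ U, f 1 = Module.finrank ℚ F ∧ Pool.Agent.H37.CA.nu f = 0 ∧
          Differentiable ℂ (Λ f) ∧
          (∀ (D : Pool.Agent.H37.CA.Frb L) (V : Type) [AddCommGroup V] [Module ℂ V]
            [FiniteDimensional ℂ V] (ρ : Representation ℂ (L ≃ₐ[ℚ] L) V), f = ρ.character →
            ∀ s : ℂ, 1 < s.re → HasProd (fun p => (D.rep V ρ).euler p s) (Λ f s)) ∧
          {ρ : ℂ | ρ ∈ St T ∧ Λ f ρ = 0}.Finite ∧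
          zc (Λ f) (St T) ≤
            (1 + ε) * (T / Real.pi * ((Module.finrank ℚ F : ℝ) / 2 * Real.log q))) ∧
        2 / (3 * (Module.finrank ℚ F : ℝ)) *
            (T / Real.pi * ((Module.finrank ℚ F : ℝ) / 2 * Real.log q)) * U.ncard ≤
          ∑ᶠ f ∈ U, ((LZ (Λ f) T).ncard : ℝ) ∧
        2 / (3 * (Module.finrank ℚ F : ℝ)) * (∑ᶠ f ∈ U, zc (Λ f) (St T)) ≤
          ∑ᶠ f ∈ U, ((LZ (Λ f) T).ncard : ℝ) ∧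
        (ks (Module.finrank ℚ F) - ε) *
            (T / Real.pi * ((Module.finrank ℚ F : ℝ) / 2 * Real.log q)) * U.ncard ≤
          ∑ᶠ f ∈ U, ((SZ (Λ f) 0 T).ncard : ℝ) ∧
        (ks (Module.finrank ℚ F) - ε) * (∑ᶠ f ∈ U, zc (Λ f) (St T)) ≤
          ∑ᶠ f ∈ U, ((SZ (Λ f) 0 T).ncard : ℝ)

end Pool.Agent.H65.CRG
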