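import Pool.Agent.H65.CRZ.TD

/-!
# Zeros on the critical line of the L-functions of ray class characters of CM fields: definitions
(general degree)
-/

set_option autoImplicit false

open NumberField NumberField.InfinitePlace Complex Filter Topology

namespace Pool.Agent.H65.CRG

open Pool.Agent.H28.RC Pool.Agent.H25.HK Pool.Agent.H37.CV Pool.Agent.H65.CRZ

/-! ### Levinson's auxiliary function -/

/-- the zeros of `f` on the critical line with `t₁ < Im s < t₂` at which `g` does not vanish -/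
def CZ (f g : ℂ → ℂ) (t₁ t₂ : ℝ) : Set ℂ :=
  {ρ : ℂ | f ρ = 0 ∧ g ρ ≠ 0 ∧ ρ.re = 1 / 2 ∧ t₁ < ρ.im ∧ ρ.im < t₂}

/-- `Z` is entire with a functional equation of degree `2 n` -/
structure LFg (n : ℕ) (C A : ℝ) (Z : ℂ → ℂ) : Prop where
  diff : Differentiable ℂ Z
  fe : ∃ (Λ : ℂ → ℂ) (ε : ℂ), Differentiable ℂ Λ ∧ ‖ε‖ = 1 ∧
    (∀ s : ℂ, (∀ n : ℕ, s ≠ -(n : ℂ)) → Λ s = (A : ℂ) ^ s * Gamma s ^ n * Z s) ∧
    ∀ s : ℂ, Λ s = ε * (starRingEnd ℂ) (Λ (1 - (starRingEnd ℂ) s))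
  bd : ∀ s : ℂ, -1 ≤ s.re → ‖Z s‖ ≤ (A * (2 + |s.im|)) ^ C
  one : ∀ s : ℂ, 3 / 2 ≤ s.re → ‖Z s - 1‖ ≤ C * (2 : ℝ) ^ (-s.re)

/-- the logarithmic derivative of `A^s Γ(s)^n` -/
noncomputable def el (n : ℕ) (A : ℝ) (s : ℂ) : ℂ := (Real.log A : ℂ) + n * ld Gamma s

/-- the functions `(d/ds + h)^k Z` -/
noncomputable def TK (h Z : ℂ → ℂ) : ℕ → ℂ → ℂ
  | 0 => Z
  | k + 1 => fun s => deriv (TK h Z k) s + h s * TK h Z k s

theorem TK_zero (h Z : ℂ → ℂ) : TK h Z 0 = Z := rfl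

theorem TK_succ (h Z : ℂ → ℂ) (k : ℕ) (s : ℂ) :
    TK h Z (k + 1) s = deriv (TK h Z k) s + h s * TK h Z k s := rfl

/-- the odd polynomial `∑ m_j y^(2j+1)` -/
noncomputable def pm (N : ℕ) (m : ℕ → ℝ) (y : ℝ) : ℝ :=
  ∑ j ∈ Finset.range N, m j * y ^ (2 * j + 1)

/-- the polynomial `Q` -/
noncomputable def Qm (N : ℕ) (m : ℕ → ℝ) (v : ℝ) : ℝ :=
  (1 + pm N m (1 / 2 - v)) / (1 + pm N m (1 / 2))

/-- the coefficients of `Q`: `Q(v) = ∑ q_i (-v)^i` -/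
noncomputable def qm (N : ℕ) (m : ℕ → ℝ) (i : ℕ) : ℝ :=
  ((if i = 0 then 1 else 0) + ∑ j ∈ Finset.range N,
    m j * ((2 * j + 1).choose i * (1 / 2 : ℝ) ^ (2 * j + 1 - i))) / (1 + pm N m (1 / 2))

/-- Levinson's auxiliary function `Q(- (1/L) d/ds) Z`, with the exact Gamma factors -/
noncomputable def VQ (n N : ℕ) (m : ℕ → ℝ) (A : ℝ) (Z : ℂ → ℂ) (s : ℂ) : ℂ :=
  (Z s + ∑ j ∈ Finset.range N, ((m j / (2 * Real.log A) ^ (2 * j + 1) : ℝ) : ℂ) *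
    TK (el n A) Z (2 * j + 1) s) / ((1 + pm N m (1 / 2) : ℝ) : ℂ)

/-- the function `e^(Rv) Q(v)` -/
noncomputable def gQ (N : ℕ) (m : ℕ → ℝ) (R v : ℝ) : ℝ := Real.exp (R * v) * Qm N m v

/-- Levinson's constant `c(Q, R, θ)` for `P(x) = x` -/
noncomputable def cQ (N : ℕ) (m : ℕ → ℝ) (R x : ℝ) : ℝ :=
  1 / 2 + gQ N m R 1 ^ 2 / 2 + 1 / x * (∫ v in (0 : ℝ)..1, gQ N m R v ^ 2) +
    x / 3 * ∫ v in (0 : ℝ)..1, deriv (gQ N m R) v ^ 2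

/-! ### The weights -/

/-- the weight of the approximate functional equation -/
noncomputable def Vn (n : ℕ) (s₁ s₂ : ℂ) (x : ℝ) : ℂ :=
  ((1 / (2 * Real.pi) : ℝ) : ℂ) * ∫ t : ℝ, Gq s₁ s₂ (2 + t * I) ^ n *
    (cexp (2 * (2 + t * I) ^ 2) / (2 + t * I)) * (x : ℂ) ^ (-(2 + t * I))

/-- the factor of the dual sum -/
noncomputable def Xn (n : ℕ) (A : ℝ) (s₁ s₂ : ℂ) : ℂ :=
  (A : ℂ) ^ (2 - 2 * (s₁ + s₂)) * (Gamma (1 - s₁) * Gamma (1 - s₂) / (Gamma s₁ * Gamma s₂)) ^ n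

section NF

variable {K : Type} [Field K] [NumberField K]

/-- the sum of the approximate functional equation -/
noncomputable def A2n (Q : ℝ) (s₁ s₂ : ℂ) (ψ : Ideal (𝓞 K) → ℂ) : ℂ :=
  ∑' p : NI K × NI K, ψ p.1.1 * (starRingEnd ℂ) (ψ p.2.1) *
    (((nm p.1.1 : ℝ) : ℂ) ^ (-s₁) * ((nm p.2.1 : ℝ) : ℂ) ^ (-s₂)) *
      Vn (nrComplexPlaces K) s₁ s₂ (nm p.1.1 * nm p.2.1 / Q)

/-- the sum over the ideals prime to `m` -/
noncomputable def Sn (m : Ideal (𝓞 K)) (s₁ s₂ : ℂ) (Y : ℝ) : ℂ :=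
  ∑' t : {t : Ideal (𝓞 K) // t ≠ ⊥ ∧ t ⊔ m = ⊤}, ((nm t.1 : ℝ) : ℂ) ^ (-(s₁ + s₂)) *
    Vn (nrComplexPlaces K) s₁ s₂ (nm t.1 ^ 2 / Y)

/-- the contribution of the relation `(I, J)` -/
noncomputable def Dn (m : Ideal (𝓞 K)) (Q M : ℝ) (s₁ s₂ : ℂ) (c₁ c₂ : Finset (PrI K) → ℂ)
    (I J : Ideal (𝓞 K)) : ℂ :=
  ((nm I : ℝ) : ℂ) ^ (-s₁) * ((nm J : ℝ) : ℂ) ^ (-s₂) * ∑ S ∈ DM K M, ∑ T ∈ DM K M,
    c₁ S * c₂ T * (((nS np T / gg np (pf I) (pf J) S T : ℝ) : ℂ) ^ (-s₁) *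
      ((nS np S / gg np (pf I) (pf J) S T : ℝ) : ℂ) ^ (-s₂)) *
      Sn m s₁ s₂ (Q * gg np (pf I) (pf J) S T ^ 2 / (nS np S * nS np T * (nm I * nm J)))

/-- the quadratic form of the relations: `R₁` is the set of the primes of `I` and `R₂` the set of
the primes of `J` -/
noncomputable def QF (K : Type) [Field K] [NumberField K] (M : ℝ) (a b w : ℂ)
    (R₁ R₂ : Finset (PrI K)) : ℂ :=
  ∑ S ∈ DM K M, ∑ T ∈ DM K M, ((xw K M S * xw K M T : ℝ) : ℂ) *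
    (((nS np S : ℝ) : ℂ) ^ (-(1 + b)) * ((nS np T : ℝ) : ℂ) ^ (-(1 + a)) *
      ((gg np R₁ R₂ S T : ℝ) : ℂ) ^ (1 + w))

/-- the conductor parameter: `A^s Γ(s)^n Z(s)` satisfies the functional equation -/
noncomputable def cB (K : Type) [Field K] [NumberField K] (m : Ideal (𝓞 K)) : ℝ :=
  Real.sqrt (cnd K m) / (2 * Real.pi) ^ nrComplexPlaces K

/-- twice the logarithm of the conductor parameter of `q` -/
noncomputable def Lg (K : Type) [Field K] [NumberField K] (q : ℕ) : ℝ :=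
  2 * Real.log (cB K (qi K q))

/-- the abscissa of the left side -/
noncomputable def sl (K : Type) [Field K] [NumberField K] (R : ℝ) (q : ℕ) : ℝ :=
  1 / 2 - R / Lg K q

/-- the mollified auxiliary function -/
noncomputable def fQ {K : Type} [Field K] [NumberField K] (N : ℕ) (m : ℕ → ℝ) (R ε : ℝ) (q : ℕ)
    (χ : RCC K) (s : ℂ) : ℂ :=
  VQ (nrComplexPlaces K) N m (cB K (qi K q)) (Zx χ) s * ml (Mq ε q) (sl K R q) χ.ψ s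

end NF

end Pool.Agent.H65.CRG
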