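import Pool.Agent.H65.CRG.TD
import Pool.Agent.H65.CRZ.FM1

/-!
# Critical zeros, general degree: lemmas for the assembly
-/

set_option autoImplicit false

open NumberField NumberField.InfinitePlace Complex Filter Topology MeasureTheory Set

namespace Pool.Agent.H65.CRG

open Pool.Agent.H28.RC Pool.Agent.H25.HK Pool.Agent.H37.CV Pool.Agent.H65.CRZ

/-- the logarithm of `c q^n` -/
theorem log_cqn {c : ℝ} (hc : 0 < c) (n : ℕ) (hn : 1 ≤ n) (e : ℝ) (he : 0 < e) :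
    ∃ q₀ : ℕ, 2 ≤ q₀ ∧ ∀ q : ℕ, q₀ ≤ q →
    (1 - e) * (n * Real.log q) ≤ Real.log (c * (q : ℝ) ^ n) ∧
      Real.log (c * (q : ℝ) ^ n) ≤ (1 + e) * (n * Real.log q) := by
  have h1 : Tendsto (fun q : ℕ => Real.log (q : ℝ)) atTop atTop :=
    Real.tendsto_log_atTop.comp tendsto_natCast_atTop_atTop
  have h2 := h1.eventually (eventually_ge_atTop (|Real.log c| / e))
  obtain ⟨q₀, h3⟩ := eventually_atTop.1 h2
  refine ⟨max q₀ 2, le_max_right _ _, fun q hq => ?_⟩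
  have h4 := h3 q ((le_max_left _ _).trans hq)
  have hq2 : 2 ≤ q := (le_max_right _ _).trans hq
  have hq0 : (0 : ℝ) < q := by exact_mod_cast (by omega : 0 < q)
  rw [div_le_iff₀ he] at h4
  have hlq : 0 ≤ Real.log q := Real.log_nonneg (by exact_mod_cast (by omega : 1 ≤ q))
  have hn' : (1 : ℝ) ≤ n := by exact_mod_cast hn
  have h6 : Real.log q * e ≤ n * Real.log q * e := by nlinarith [mul_nonneg hlq he.le]
  rw [Real.log_mul hc.ne' (pow_pos hq0 n).ne', Real.log_pow]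
  have h5 := abs_le.1 (le_refl |Real.log c|)
  constructor <;> nlinarith [h5.1, h5.2]

/-- the bound of the zeros on the line -/
theorem num_simple {T lA lq ε ε₀ κ R C₄ S n l : ℝ} (hT : 0 < T) (hε : 0 < ε) (hε1 : ε ≤ 1 / 10)
    (hεε : ε ≤ ε₀) (hlA : 0 ≤ lA) (hlq : 0 ≤ lq) (hn : 0 < n) (hR : 0 < R) (hκ : ε₀ ≤ κ)
    (hκ1 : κ ≤ 1)
    (h4 : 8 * Real.pi * C₄ ≤ ε * T) (hlog : (1 - ε / 4) * lq ≤ lA)
    (hl : l / R ≤ 1 - κ + ε / 8)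
    (hS : S ≤ 2 * lA / (4 * R) * (T * (l / Real.pi + ε * R / (8 * Real.pi))) * n) :
    (κ - ε₀) * (T / Real.pi * lq) * n ≤ n * ((T / Real.pi - C₄) * lA) - 2 * S := by
  have hpi := Real.pi_pos
  obtain ⟨t, ht⟩ : ∃ t : ℝ, t = T / Real.pi := ⟨_, rfl⟩
  have ht0 : 0 < t := by rw [ht]; positivity
  have h5 : C₄ ≤ ε / 8 * t := by
    have : ε / 8 * t = ε * T / (8 * Real.pi) := by rw [ht]; ring
    rw [this, le_div_iff₀ (by positivity)]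
    linarith
  have hS1 : 2 * lA / (4 * R) * (T * (l / Real.pi + ε * R / (8 * Real.pi))) * n =
      1 / 2 * (l / R + ε / 8) * (n * (t * lA)) := by
    rw [ht]
    field_simp
    ring
  rw [hS1] at hS
  rw [← ht]
  obtain ⟨w, hw⟩ : ∃ w : ℝ, w = n * (t * lA) := ⟨_, rfl⟩
  have hw0 : 0 ≤ w := by rw [hw]; positivity
  rw [← hw] at hS
  have h6 : 2 * S ≤ (1 - κ + ε / 8 + ε / 8) * w := by
    have : 1 / 2 * (l / R + ε / 8) * w ≤ 1 / 2 * (1 - κ + ε / 8 + ε / 8) * w := by gcongr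
    linarith
  have h7 : n * ((t - C₄) * lA) = w - C₄ * (n * lA) := by rw [hw]; ring
  have h8 : C₄ * (n * lA) ≤ ε / 8 * w := by
    have : ε / 8 * w = ε / 8 * t * (n * lA) := by rw [hw]; ring
    rw [this]
    exact mul_le_mul_of_nonneg_right h5 (by positivity)
  have h9 : (κ - 3 * ε / 8) * w ≤ n * ((t - C₄) * lA) - 2 * S := by
    rw [h7]
    nlinarith
  refine le_trans ?_ h9
  have h10 : (κ - ε₀) ≤ (κ - 3 * ε / 8) * (1 - ε / 4) := by nlinarith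
  have h11 : 0 ≤ t * lq * n := by positivity
  have h12 : (κ - ε₀) * (t * lq) * n = (κ - ε₀) * (t * lq * n) := by ring
  rw [h12]
  refine (mul_le_mul_of_nonneg_right h10 h11).trans ?_
  have h13 : (κ - 3 * ε / 8) * (1 - ε / 4) * (t * lq * n) =
      (κ - 3 * ε / 8) * (n * (t * ((1 - ε / 4) * lq))) := by ring
  rw [h13, hw]
  have : 0 ≤ κ - 3 * ε / 8 := by linarith
  gcongr

/-- the right side of Carleman's inequality -/
theorem num_car {b a D C₂ C₃ T l S n L P R : ℝ} (hD : 0 < D) (ha : 0 ≤ a) (hab : a ≤ b)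
    (hC₂ : 0 ≤ C₂) (hC₃ : 1 ≤ C₃) (hT : 0 < T) (hn : 0 < n) (hL : 0 < L) (hR : 0 < R)
    (haL : 1 / 2 - a = R / L)
    (hP : P = l / Real.pi + b / D * Real.sinh (Real.pi * (b / D)) * Real.log C₃ +
      (D + 2) * Real.cosh (Real.pi * (b / D)) * (C₂ * (2 : ℝ) ^ (-b)))
    (h : 4 * D * (1 / 2 - a) * S ≤ (T + D) * (D / Real.pi * l +
      (b - a) * Real.sinh (Real.pi * (b - a) / D) * Real.log C₃ +
      (D + 2) * D * Real.cosh (Real.pi * (b - a) / D) * (C₂ * (2 : ℝ) ^ (-b))) * n) :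
    S ≤ L / (4 * R) * ((T + D) * P) * n := by
  have hPD : D / Real.pi * l +
      (b - a) * Real.sinh (Real.pi * (b - a) / D) * Real.log C₃ +
      (D + 2) * D * Real.cosh (Real.pi * (b - a) / D) * (C₂ * (2 : ℝ) ^ (-b)) ≤ D * P := by
    obtain ⟨h1, h2⟩ := sinh_part hD ha hab
    have h3 : 0 ≤ Real.log C₃ := Real.log_nonneg hC₃
    have h4 := mul_le_mul_of_nonneg_right h1 h3
    have h5 : 0 ≤ (D + 2) * D * (C₂ * (2 : ℝ) ^ (-b)) := by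
      have : 0 ≤ (2 : ℝ) ^ (-b) := by positivity
      positivity
    have h6 := mul_le_mul_of_nonneg_right h2 h5
    have h7 : D * P = D / Real.pi * l +
        D * (b / D * Real.sinh (Real.pi * (b / D))) * Real.log C₃ +
        Real.cosh (Real.pi * (b / D)) * ((D + 2) * D * (C₂ * (2 : ℝ) ^ (-b))) := by
      rw [hP]
      ring
    rw [h7]
    linarith
  have h1 : 4 * D * (1 / 2 - a) * S ≤ (T + D) * (D * P) * n := by
    refine h.trans ?_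
    refine mul_le_mul_of_nonneg_right ?_ hn.le
    exact mul_le_mul_of_nonneg_left hPD (by linarith)
  rw [haL] at h1
  have h3 : 4 * D * (R / L) * S = D * (4 * R / L * S) := by ring
  have h4 : (T + D) * (D * P) * n = D * ((T + D) * P * n) := by ring
  rw [h3, h4] at h1
  have h5 := le_of_mul_le_mul_left h1 hD
  have h7 : S = L / (4 * R) * (4 * R / L * S) := by field_simp
  rw [h7, mul_assoc (L / (4 * R))]
  exact mul_le_mul_of_nonneg_left h5 (by positivity)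

/-- one character -/
theorem one_chi {K : Type} [Field K] [NumberField K] (hZM : Pool.Agent.H65.CRZ.T_ZM) {N : ℕ}
    {m : ℕ → ℝ} {R ε₁ A b b₁ T T' D : ℝ} {q : ℕ}
    (hA : A = cB K (qi K q)) (hb : 1 < b) (hbb : b₁ ≤ b) (hD : 0 < D) (hT : 0 < T)
    (hT' : T' = T + D + 1) (χ : RCC K)
    (hV0 : ∀ s : ℂ, 1 / 8 < s.re → s.re < 2 * b → |s.im| < T' →
      DifferentiableAt ℂ (VQ (nrComplexPlaces K) N m A (Zx χ)) s)
    (hne : fQ N m R ε₁ q χ ((b : ℂ) + (0 : ℝ) * I) ≠ 0)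
    (hfin : {ρ : ℂ | 1 / 2 ≤ ρ.re ∧ ρ.re < b ∧ ρ ∈ St T ∧ fQ N m R ε₁ q χ ρ = 0}.Finite) :
    zc (VQ (nrComplexPlaces K) N m A (Zx χ)) {ρ : ℂ | 1 / 2 ≤ ρ.re ∧ ρ.re < b₁ ∧ ρ ∈ St T} ≤
      zc (fQ N m R ε₁ q χ) {ρ : ℂ | 1 / 2 ≤ ρ.re ∧ ρ.re < b ∧ ρ ∈ St T} := by
  have hU : ∀ s ∈ {ρ : ℂ | 1 / 2 ≤ ρ.re ∧ ρ.re < b ∧ ρ ∈ St T}, s ∈ UU b T' := by
    rintro s ⟨h3, h4, h5, h6⟩
    exact mem_UU hb hD hT hT' (by linarith) h4.le (by linarith) (by linarith)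
  have hVan : AnalyticOnNhd ℂ (VQ (nrComplexPlaces K) N m A (Zx χ)) (UU b T') := by
    apply DifferentiableOn.analyticOnNhd _ (UU_open b T')
    intro s hs
    exact (hV0 s (by linarith [hs.1]) hs.2.1 hs.2.2).differentiableWithinAt
  have hMan : AnalyticOnNhd ℂ (ml (Mq ε₁ q) (sl K R q) χ.ψ) (UU b T') := by
    apply DifferentiableOn.analyticOnNhd _ (UU_open b T')
    intro s _
    exact (ml_diff _ _ _ s).differentiableWithinAt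
  have hbU : ((b : ℂ) + (0 : ℝ) * I) ∈ UU b T' := by
    refine mem_UU hb hD hT hT' ?_ ?_ ?_ ?_
    · simp; linarith
    · simp
    · simp; linarith
    · simp; linarith
  have h4 : (fun s => VQ (nrComplexPlaces K) N m A (Zx χ) s *
      ml (Mq ε₁ q) (sl K R q) χ.ψ s) = fQ N m R ε₁ q χ := by
    funext s
    unfold fQ
    rw [← hA]
  have hne1 : VQ (nrComplexPlaces K) N m A (Zx χ) ((b : ℂ) + (0 : ℝ) * I) ≠ 0 ∧
      ml (Mq ε₁ q) (sl K R q) χ.ψ ((b : ℂ) + (0 : ℝ) * I) ≠ 0 := by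
    rw [← h4] at hne
    exact mul_ne_zero_iff.1 hne
  have h3 := (hZM.1 (VQ (nrComplexPlaces K) N m A (Zx χ)) (ml (Mq ε₁ q) (sl K R q) χ.ψ)
    {ρ : ℂ | 1 / 2 ≤ ρ.re ∧ ρ.re < b₁ ∧ ρ ∈ St T} {ρ : ℂ | 1 / 2 ≤ ρ.re ∧ ρ.re < b ∧ ρ ∈ St T}
    (by
      rintro s ⟨h4, h5, h6⟩
      exact ⟨h4, lt_of_lt_of_le h5 hbb, h6⟩)
    (by
      intro s hs
      exact ⟨hVan s (hU s hs), hMan s (hU s hs),
        Pool.Agent.H18.PZ.order_ne_top (UU_conn b T') hVan hbU hne1.1 (hU s hs),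
        Pool.Agent.H18.PZ.order_ne_top (UU_conn b T') hMan hbU hne1.2 (hU s hs)⟩)
    (by
      refine hfin.subset ?_
      rintro s ⟨⟨h5, h6, h7⟩, h8⟩
      refine ⟨h5, h6, h7, ?_⟩
      rw [← h4]
      exact h8)).2.1
  rw [h4] at h3
  exact h3

/-- the number of the zeros of the auxiliary functions -/
theorem car_app {K : Type} [Field K] [NumberField K] (hCM : Pool.Agent.H65.CRZ.T_CM) {N : ℕ}
    {m : ℕ → ℝ} {R ε₁ b T D T' C₂ C₃ Q₁ : ℝ} {q : ℕ} (hR : 0 < R)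
    (hb4 : 4 ≤ b) (hC₃ : 1 ≤ C₃) (hT : 0 < T) (hD : 0 < D) (hQ₁ : 1 ≤ Q₁)
    (hT' : T' = T + D + 1) (hL6 : 5 * R ≤ Lg K q) (hL0 : 0 < Lg K q) [Fintype (Pr K (qi K q))]
    (hFB : ∀ χ ∈ Pr K (qi K q), ∀ s : ℂ, 1 / 4 < s.re → s.re < 2 * b → |s.im| < T' →
        DifferentiableAt ℂ (fQ N m R ε₁ q χ) s ∧
        (4 ≤ s.re → ‖fQ N m R ε₁ q χ s‖ ≤ C₂) ∧
        (s.re = b → fQ N m R ε₁ q χ s ≠ 0 ∧
          |Real.log ‖fQ N m R ε₁ q χ s‖| ≤ C₂ * (2 : ℝ) ^ (-b) ∧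
          ‖deriv (fQ N m R ε₁ q χ) s‖ ≤
            C₂ * (2 : ℝ) ^ (-b) * ‖fQ N m R ε₁ q χ s‖))
    (hIN : ∀ x t : ℝ, sl K R q ≤ x → x ≤ b → |t| ≤ T' →
      ∑ᶠ χ ∈ Pr K (qi K q), ‖fQ N m R ε₁ q χ (x + t * I)‖ ^ 2 ≤
        C₃ * (Pr K (qi K q)).ncard)
    (hLE : ∀ t : ℝ, |t| ≤ T' → ∑ᶠ χ ∈ Pr K (qi K q),
      ‖fQ N m R ε₁ q χ (sl K R q + t * I)‖ ^ 2 ≤
        Q₁ * (Pr K (qi K q)).ncard) :
    (∀ χ ∈ Pr K (qi K q), {ρ : ℂ | 1 / 2 ≤ ρ.re ∧ ρ.re < b ∧ ρ ∈ St T ∧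
      fQ N m R ε₁ q χ ρ = 0}.Finite) ∧
    4 * D * (1 / 2 - sl K R q) * ∑ i : Pr K (qi K q),
      zc (fQ N m R ε₁ q i.1) {ρ : ℂ | 1 / 2 ≤ ρ.re ∧ ρ.re < b ∧ ρ ∈ St T} ≤
      (T + D) * (D / Real.pi * Real.log Q₁ +
      (b - sl K R q) * Real.sinh (Real.pi * (b - sl K R q) / D) * Real.log C₃ +
      (D + 2) * D * Real.cosh (Real.pi * (b - sl K R q) / D) * (C₂ * (2 : ℝ) ^ (-b))) *
        (Pr K (qi K q)).ncard := by
  have hcard : (Fintype.card (Pr K (qi K q)) : ℝ) = (Pr K (qi K q)).ncard := by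
    rw [← Nat.card_coe_set_eq, Nat.card_eq_fintype_card]
  obtain ⟨a, ha⟩ : ∃ a : ℝ, a = sl K R q := ⟨_, rfl⟩
  have ha' : a = 1 / 2 - R / Lg K q := by rw [ha, sl]
  have hRL : R / Lg K q ≤ 1 / 5 := by
    rw [div_le_iff₀ hL0]; linarith
  have hRL0 : 0 < R / Lg K q := div_pos hR hL0
  have ha1 : 1 / 4 < a := by rw [ha']; linarith
  have ha2 : a < 1 / 2 := by rw [ha']; linarith
  rw [← ha] at hIN hLE ⊢
  have hmem : ∀ s : ℂ, a ≤ s.re → s.re ≤ b → -D ≤ s.im → s.im ≤ T + D → s ∈ UU b T' :=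
    fun s h1 h2 h3 h4 => mem_UU (by linarith) hD hT hT' (by linarith) h2 h3 h4
  have hab : ∀ t ∈ Icc (-D) (T + D), |t| ≤ T' := by
    intro t ht
    rw [abs_le, hT']
    constructor <;> linarith [ht.1, ht.2]
  have c1 : ∀ i : Pr K (qi K q), ∀ s ∈ UU b T',
      DifferentiableAt ℂ (fQ N m R ε₁ q i.1) s :=
    fun i s hs => (hFB i.1 i.2 s hs.1 hs.2.1 hs.2.2).1
  have c2 : ∀ i : Pr K (qi K q), ∀ t ∈ Icc (-D) (T + D),
      fQ N m R ε₁ q i.1 (b + t * I) ≠ 0 ∧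
      |Real.log ‖fQ N m R ε₁ q i.1 (b + t * I)‖| ≤ C₂ * (2 : ℝ) ^ (-b) ∧
      ‖deriv (fQ N m R ε₁ q i.1) (b + t * I)‖ ≤
        C₂ * (2 : ℝ) ^ (-b) * ‖fQ N m R ε₁ q i.1 (b + t * I)‖ := by
    intro i t ht
    have e1 : ((b : ℂ) + t * I).re = b := by simp
    have e2 : ((b : ℂ) + t * I).im = t := by simp
    have hs := hmem ((b : ℂ) + t * I) (by rw [e1]; linarith) (by rw [e1]) (by rw [e2]; exact ht.1)
      (by rw [e2]; exact ht.2)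
    exact (hFB i.1 i.2 _ hs.1 hs.2.1 hs.2.2).2.2 e1
  have c3 : ∀ t ∈ Icc (-D) (T + D), ∑ i : Pr K (qi K q),
      ‖fQ N m R ε₁ q i.1 (a + t * I)‖ ^ 2 ≤ Q₁ * Fintype.card (Pr K (qi K q)) := by
    intro t ht
    have h1 := hLE t (hab t ht)
    rw [fsum_coe] at h1
    rw [hcard]
    exact h1
  have c4 : ∀ t ∈ Icc (-D) (T + D), ∀ x ∈ Icc a b, ∑ i : Pr K (qi K q),
      ‖fQ N m R ε₁ q i.1 (x + t * I)‖ ^ 2 ≤
        C₃ * Fintype.card (Pr K (qi K q)) := by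
    intro t ht x hx
    have h1 := hIN x t hx.1 hx.2 (hab t ht)
    rw [fsum_coe] at h1
    rw [hcard]
    exact h1
  obtain ⟨k1, k2⟩ := hCM (Pr K (qi K q)) (fun i => fQ N m R ε₁ q i.1) a (1 / 2)
    b T D (C₂ * (2 : ℝ) ^ (-b)) Q₁ C₃ (UU b T') ha2 (by linarith) hT hD hQ₁
    hC₃ (UU_open b T') (UU_conn b T') c1 hmem c2 c3 c4
  rw [hcard] at k2
  exact ⟨fun χ hχ => k1 ⟨χ, hχ⟩, k2⟩

end Pool.Agent.H65.CRG
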